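import Pool.Agent.U619.UN.Big2

/-! # Uniformity in all couplings bounded away from zero -/

set_option autoImplicit false
set_option linter.unusedSectionVars false

open MeasureTheory Filter Topology
open scoped BigOperators ENNReal NNReal InnerProductSpace BoundedContinuousFunction

namespace Pool.Agent.U619.UN

open Pool.Agent.H5R2.NB Pool.Agent.U619.NB

variable {d : ℕ} {c : ℝ} {ev : (Site d → ℝ) → UG (L2 (Site d))}

theorem meas_Mp (hev : ∀ V, IsGrp c V (ev V)) (p t : ℝ) :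
    Measurable (fun V : Site d → ℝ => Mp p ((ev V).U t (dl 0))) := by
  unfold Mp
  refine Measurable.tsum fun x => ?_
  refine Measurable.const_mul ?_ _
  refine Measurable.pow_const ?_ 2
  have h1 : Continuous (fun V : Site d → ℝ => (ev V).U t (dl 0)) :=
    (ALL.a_CV d c ev hev).comp
      (continuous_id.prodMk (continuous_const.prodMk continuous_const))
  have h2 : Continuous (fun f : L2 (Site d) => (f : Site d → ℂ) x) :=
    (continuous_apply x).comp (lp.uniformContinuous_coe).continuous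
  exact (h2.comp h1).enorm.measurable

theorem lint_aff (f : (Site d → ℝ) → ℝ≥0∞) (hf : Measurable f) (a l : ℝ)
    (μ : ProbabilityMeasure ℝ) :
    ∫⁻ V, f V ∂(PP d ((aff a (l, μ) : ProbabilityMeasure ℝ) : Measure ℝ)) =
      ∫⁻ ω : Site d → ℝ, f (fun x => a + l * ω x) ∂(PP d (μ : Measure ℝ)) := by
  have hg : Measurable (fun r : ℝ => a + l * r) := by fun_prop
  have hgm : Measurable (fun (ω : Site d → ℝ) (x : Site d) => a + l * ω x) :=
    measurable_pi_iff.2 fun x => hg.comp (measurable_pi_apply x)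
  have hmap : (PP d (μ : Measure ℝ)).map (fun (ω : Site d → ℝ) (x : Site d) => a + l * ω x) =
      PP d ((aff a (l, μ) : ProbabilityMeasure ℝ) : Measure ℝ) := by
    unfold PP
    rw [aff_coe]
    exact Measure.infinitePi_map_pi (μ := fun _ : Site d => (μ : Measure ℝ)) (fun _ => hg)
  rw [← hmap, lintegral_map hf hgm]

theorem IG_aff (a l : ℝ) (B : ℝ) (hB : 0 < B) (μ : ProbabilityMeasure ℝ) :
    IG d B 1 (aff a (l, μ)) = IG d B l μ := by
  unfold IG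
  rw [lint_aff (fun V : Site d → ℝ => ENNReal.ofReal (GG B 1 V))
    (ENNReal.continuous_ofReal.comp (continuous_GG B 1 hB)).measurable a l μ]
  refine lintegral_congr fun ω => ?_
  rw [GG_aff]

/-- the displacement at time one at large coupling -/
theorem big_one (hd : 0 < d) (hev : ∀ V, IsGrp c V (ev V)) (a : ℝ)
    (K : Set (ProbabilityMeasure ℝ)) (hK : IsCompact K)
    (hat : ∀ μ ∈ K, ∀ r : ℝ, (μ : Measure ℝ) {r} = 0) (η : ℝ≥0∞) (hη : 0 < η) :
    ∃ Λ : ℝ, ∀ l : ℝ, Λ ≤ |l| → ∀ μ ∈ K,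
      ∫⁻ V, M2 ((ev V).U 1 (dl 0)) ∂(PP d ((aff a (l, μ) : ProbabilityMeasure ℝ) :
        Measure ℝ)) ≤ η := by
  obtain ⟨C, hC, h⟩ := M2_one hd c
  have hη2 : 0 < η / 2 := ENNReal.half_pos hη.ne'
  obtain ⟨R, hR, hR2⟩ : ∃ R : ℝ, 0 < R ∧ ENNReal.ofReal ((R ^ 2)⁻¹) * C ≤ η / 2 := by
    have h1 : Tendsto (fun R : ℝ => ENNReal.ofReal ((R ^ 2)⁻¹) * C) atTop (𝓝 0) := by
      have h2 : Tendsto (fun R : ℝ => (R ^ 2)⁻¹) atTop (𝓝 0) :=
        (tendsto_pow_atTop (by norm_num)).inv_tendsto_atTop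
      have h3 := (ENNReal.continuous_ofReal.tendsto 0).comp h2
      rw [ENNReal.ofReal_zero] at h3
      have h4 := ENNReal.Tendsto.mul_const (b := C) h3 (Or.inr hC)
      rw [zero_mul] at h4
      exact h4
    obtain ⟨R, h2, h3⟩ := ((ENNReal.tendsto_nhds_zero.1 h1 (η / 2) hη2).and
      (eventually_gt_atTop (0 : ℝ))).exists
    exact ⟨R, h3, h2⟩
  have hR0 : ENNReal.ofReal (R ^ 2) ≠ 0 := by
    rw [Ne, ENNReal.ofReal_eq_zero, not_le]
    positivity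
  have hη3 : 0 < η / 2 / ENNReal.ofReal (R ^ 2) :=
    ENNReal.div_pos hη2.ne' ENNReal.ofReal_ne_top
  have hB := BB_pos d c
  obtain ⟨Λ, hΛ0, hΛ⟩ := unif_IG (d := d) (BB d c) hB K hK hat _ hη3
  refine ⟨Λ, fun l hl μ hμ => ?_⟩
  have hP : IsProbabilityMeasure (PP d ((aff a (l, μ) : ProbabilityMeasure ℝ) :
      Measure ℝ)) := by
    unfold PP
    infer_instance
  have hG : Measurable fun V : Site d → ℝ =>
      ENNReal.ofReal (R ^ 2) * ENNReal.ofReal (GG (BB d c) 1 V) :=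
    ((ENNReal.continuous_ofReal.comp (continuous_GG (BB d c) 1 hB)).measurable).const_mul _
  calc ∫⁻ V, M2 ((ev V).U 1 (dl 0)) ∂(PP d ((aff a (l, μ) : ProbabilityMeasure ℝ) :
        Measure ℝ))
      ≤ ∫⁻ V, (ENNReal.ofReal (R ^ 2) * ENNReal.ofReal (GG (BB d c) 1 V) +
        ENNReal.ofReal ((R ^ 2)⁻¹) * C) ∂(PP d ((aff a (l, μ) : ProbabilityMeasure ℝ) :
        Measure ℝ)) := lintegral_mono fun V => h V (ev V) (hev V) R hR
    _ = ENNReal.ofReal (R ^ 2) * IG d (BB d c) 1 (aff a (l, μ)) +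
        ENNReal.ofReal ((R ^ 2)⁻¹) * C := by
        rw [lintegral_add_left hG, lintegral_const, measure_univ, mul_one,
          lintegral_const_mul' _ _ ENNReal.ofReal_ne_top]
        rfl
    _ = ENNReal.ofReal (R ^ 2) * IG d (BB d c) l μ + ENNReal.ofReal ((R ^ 2)⁻¹) * C := by
        rw [IG_aff a l _ hB]
    _ ≤ ENNReal.ofReal (R ^ 2) * (η / 2 / ENNReal.ofReal (R ^ 2)) + η / 2 := by
        gcongr
        exact hΛ l hl μ hμ
    _ = η := by
        rw [ENNReal.mul_div_cancel hR0 ENNReal.ofReal_ne_top, ENNReal.add_halves]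

/-- the set of laws of `a + l ω`, `|l| ≥ l₁`, law of `ω` in `K` -/
def fam (a l₁ : ℝ) (K : Set (ProbabilityMeasure ℝ)) : Set (ProbabilityMeasure ℝ) :=
  aff a '' ({l : ℝ | l₁ ≤ |l|} ×ˢ K)

theorem sum_bound (hev : ∀ V, IsGrp c V (ev V)) : ∃ C : ℝ≥0∞, C ≠ ∞ ∧
    ∀ (μ : ProbabilityMeasure ℝ) (t : ℝ), 0 < t →
      (∫⁻ V, M2 ((ev V).U t (dl 0)) ∂(PP d (μ : Measure ℝ))) / ENNReal.ofReal (t ^ 2) ≤
        2 * (∫⁻ V, M2 ((ev V).U 1 (dl 0)) ∂(PP d (μ : Measure ℝ))) +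
          C / ENNReal.ofReal (t ^ 2) := by
  have hv : ∀ j : Fin d, ∃ v : L2 (Site d) →L[ℂ] L2 (Site d), IsVel c j v :=
    fun j => (t_OPS d).2.2 c j
  choose v hv using hv
  refine ⟨∑ j : Fin d, ENNReal.ofReal (2 * (‖v j‖ * 1) ^ 2),
    ENNReal.sum_ne_top.2 fun j _ => ENNReal.ofReal_ne_top, fun μ t ht => ?_⟩
  rw [second_J hev v hv, second_J hev v hv]
  simp only [ENNReal.div_eq_inv_mul, Finset.mul_sum]
  rw [← Finset.sum_add_distrib]
  refine Finset.sum_le_sum fun j _ => ?_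
  have h7 := J_bound hev j (v j) (hv j) μ 1 one_pos t ht
  simp only [ENNReal.div_eq_inv_mul, one_pow, ENNReal.ofReal_one, inv_one, one_mul] at h7
  exact h7

theorem unif2_all (hd : 0 < d) (hev : ∀ V, IsGrp c V (ev V)) (a : ℝ)
    (K : Set (ProbabilityMeasure ℝ)) (hK : IsCompact K)
    (hat : ∀ μ ∈ K, ∀ r : ℝ, (μ : Measure ℝ) {r} = 0) (l₁ : ℝ) (hl : 0 < l₁) (ε : ℝ≥0∞)
    (hε : 0 < ε) :
    ∀ᶠ t : ℝ in atTop, ∀ μ ∈ fam a l₁ K,
      (∫⁻ V, M2 ((ev V).U t (dl 0)) ∂(PP d (μ : Measure ℝ))) / ENNReal.ofReal (t ^ 2) ≤ ε := by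
  have hε4 : 0 < ε / 4 := ENNReal.div_pos hε.ne' (by norm_num)
  have hε2 : 0 < ε / 2 := ENNReal.half_pos hε.ne'
  obtain ⟨Λ, hΛ⟩ := big_one hd hev a K hK hat _ hε4
  obtain ⟨C, hC, hsum⟩ := sum_bound (d := d) (c := c) hev
  have hB : Tendsto (fun t : ℝ => C / ENNReal.ofReal (t ^ 2)) atTop (𝓝 0) := by
    have hp' : Tendsto (fun t : ℝ => ENNReal.ofReal (t ^ 2)) atTop (𝓝 ∞) :=
      ENNReal.tendsto_ofReal_atTop.comp (tendsto_pow_atTop (by norm_num))
    have h4 := ENNReal.Tendsto.div (tendsto_const_nhds (x := C) (f := (atTop : Filter ℝ)))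
      (Or.inr (by simp)) hp' (Or.inr hC)
    simpa using h4
  have hK' : IsCompact (aff a '' ({l : ℝ | l₁ ≤ |l| ∧ |l| ≤ Λ} ×ˢ K)) :=
    ((compact_coupling l₁ Λ).prod hK).image (continuous_aff a)
  have hnd' : ∀ μ ∈ aff a '' ({l : ℝ | l₁ ≤ |l| ∧ |l| ≤ Λ} ×ˢ K), ∀ κ : ℝ,
      (μ : Measure ℝ) {κ} ≠ 1 := by
    rintro _ ⟨⟨l, μ⟩, ⟨hl1, hμ⟩, rfl⟩ κ
    refine aff_ne a l ?_ μ (fun r => ?_) κ
    · intro h0
      have h1 : l₁ ≤ |l| := hl1.1
      rw [h0, abs_zero] at h1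
      linarith
    · rw [hat μ hμ r]
      exact zero_ne_one
  filter_upwards [unif2 hev _ hK' hnd' ε hε, ENNReal.tendsto_nhds_zero.1 hB (ε / 2) hε2,
    eventually_gt_atTop (0 : ℝ)] with t h1 h2 h3
  rintro _ ⟨⟨l, μ⟩, ⟨hl1, hμ⟩, rfl⟩
  rcases le_total |l| Λ with h | h
  · exact h1 _ ⟨(l, μ), ⟨⟨hl1, h⟩, hμ⟩, rfl⟩
  · refine (hsum _ t h3).trans ?_
    calc 2 * (∫⁻ V, M2 ((ev V).U 1 (dl 0)) ∂(PP d ((aff a (l, μ) : ProbabilityMeasure ℝ) :
          Measure ℝ))) + C / ENNReal.ofReal (t ^ 2)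
        ≤ 2 * (ε / 4) + ε / 2 := by
          gcongr
          exact hΛ l h μ hμ
      _ = ε := by
          have e4 : (4 : ℝ≥0∞) = 2 * 2 := by norm_num
          have : 2 * (ε / 4) = ε / 2 := by
            rw [e4, div_eq_mul_inv, div_eq_mul_inv, ENNReal.mul_inv (by norm_num) (by norm_num),
              ← mul_assoc ε, mul_comm (2 : ℝ≥0∞), mul_assoc (ε * 2⁻¹),
              ENNReal.inv_mul_cancel (by norm_num) (by norm_num), mul_one]
          rw [this, ENNReal.add_halves]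

/-- from second moments to all moments -/
theorem unifp_of (hd : 0 < d) (hev : ∀ V, IsGrp c V (ev V)) (S : Set (ProbabilityMeasure ℝ))
    (h2 : ∀ ε : ℝ≥0∞, 0 < ε → ∀ᶠ t : ℝ in atTop, ∀ μ ∈ S,
      (∫⁻ V, M2 ((ev V).U t (dl 0)) ∂(PP d (μ : Measure ℝ))) / ENNReal.ofReal (t ^ 2) ≤ ε)
    (p : ℝ) (hp : 0 < p) :
    Tendsto (fun t : ℝ => (⨆ μ ∈ S, ∫⁻ V, Mp p ((ev V).U t (dl 0)) ∂(PP d (μ : Measure ℝ))) /
      ENNReal.ofReal (t ^ p)) atTop (𝓝 0) := by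
  have h2 : Tendsto (fun t : ℝ => (⨆ μ ∈ S, ∫⁻ V, M2 ((ev V).U t (dl 0))
      ∂(PP d (μ : Measure ℝ))) / ENNReal.ofReal (t ^ 2)) atTop (𝓝 0) := by
    rw [ENNReal.tendsto_nhds_zero]
    intro ε hε
    filter_upwards [h2 ε hε] with t ht
    simp only [ENNReal.iSup_div]
    exact iSup₂_le ht
  have hprob : ∀ μ : ProbabilityMeasure ℝ, IsProbabilityMeasure (PP d (μ : Measure ℝ)) := by
    intro μ
    unfold PP
    infer_instance
  rcases le_or_gt p 2 with hp2 | hp2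
  · refine abs_low p hp _ _ 1 (by norm_num) h2 fun s hs t => ?_
    have h1 : ∀ V, Mp p ((ev V).U t (dl 0)) ≤ ENNReal.ofReal (s ^ p) * 1 +
        ENNReal.ofReal (s ^ (p - 2)) * M2 ((ev V).U t (dl 0)) := by
      intro V
      have := low_le p hp hp2 s hs ((ev V).U t (dl 0))
      have e : ‖(ev V).U t (dl 0)‖ₑ = 1 := by
        rw [← ofReal_norm, (ev V).norm', GEN.norm_dl]
        simp
      rw [e] at this
      simpa using this
    refine iSup₂_le fun μ hμ => ?_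
    have := hprob μ
    refine (lintegral_mono h1).trans ?_
    rw [lintegral_add_left measurable_const, lintegral_const, measure_univ, mul_one,
      lintegral_const_mul' _ _ ENNReal.ofReal_ne_top]
    gcongr
    exact le_iSup₂ (f := fun (μ : ProbabilityMeasure ℝ) (_ : μ ∈ S) =>
      ∫⁻ V, M2 ((ev V).U t (dl 0)) ∂(PP d (μ : Measure ℝ))) μ hμ
  · obtain ⟨L, C, hL, hC, h⟩ := high_evo hd c p hp2
    refine abs_high p hp2 _ _ L hL (ENNReal.ofReal C * ∑ j : Fin d, EE j (dl 0)) ?_ h2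
      fun t ht => ?_
    · exact ENNReal.mul_ne_top ENNReal.ofReal_ne_top
        (ENNReal.sum_ne_top.2 fun j _ => EE_dl j 0)
    · refine iSup₂_le fun μ hμ => ?_
      have := hprob μ
      refine (lintegral_mono fun V => h V (ev V) (hev V) (dl 0) t ht).trans ?_
      rw [lintegral_add_right _ measurable_const, lintegral_const, measure_univ, mul_one,
        lintegral_const_mul' _ _ ENNReal.ofReal_ne_top]
      gcongr
      exact le_iSup₂ (f := fun (μ : ProbabilityMeasure ℝ) (_ : μ ∈ S) =>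
        ∫⁻ V, M2 ((ev V).U t (dl 0)) ∂(PP d (μ : Measure ℝ))) μ hμ

/-- all moments, uniformly in all couplings bounded away from zero and on weakly compact sets of
laws without atoms -/
theorem unif_all (hd : 0 < d) (hev : ∀ V, IsGrp c V (ev V)) (a : ℝ)
    (K : Set (ProbabilityMeasure ℝ)) (hK : IsCompact K)
    (hat : ∀ μ ∈ K, ∀ r : ℝ, (μ : Measure ℝ) {r} = 0) (l₁ : ℝ) (hl : 0 < l₁) (p : ℝ)
    (hp : 0 < p) (ε : ℝ) (hε : 0 < ε) :
    ∃ t₀ : ℝ, ∀ t : ℝ, t₀ ≤ t → ∀ μ ∈ K, ∀ l : ℝ, l₁ ≤ |l| →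
      ∫⁻ V, Mp p ((ev V).U t (dl 0)) ∂(PP d ((aff a (l, μ) : ProbabilityMeasure ℝ) :
        Measure ℝ)) ≤ ENNReal.ofReal (ε * t ^ p) := by
  have h := unifp_of hd hev (fam a l₁ K) (unif2_all hd hev a K hK hat l₁ hl) p hp
  have hε' : 0 < ENNReal.ofReal ε := ENNReal.ofReal_pos.2 hε
  obtain ⟨t₀, ht₀⟩ := eventually_atTop.1 ((ENNReal.tendsto_nhds_zero.1 h _ hε').and
    (eventually_gt_atTop (0 : ℝ)))
  refine ⟨t₀, fun t ht μ hμ l hl1 => ?_⟩
  obtain ⟨h1, h2⟩ := ht₀ t ht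
  have h3 : ENNReal.ofReal (t ^ p) ≠ 0 := by
    rw [Ne, ENNReal.ofReal_eq_zero, not_le]
    positivity
  rw [ENNReal.div_le_iff h3 ENNReal.ofReal_ne_top, ← ENNReal.ofReal_mul hε.le] at h1
  refine le_trans ?_ h1
  exact le_iSup₂ (f := fun (μ : ProbabilityMeasure ℝ) (_ : μ ∈ fam a l₁ K) =>
      ∫⁻ V, Mp p ((ev V).U t (dl 0)) ∂(PP d (μ : Measure ℝ))) (aff a (l, μ))
    ⟨(l, μ), ⟨hl1, hμ⟩, rfl⟩

/-! ### laws on `[-b,b]` with density at most `C` -/

/-- the laws on `[-b, b]` with density at most `C` -/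
def dens (b : ℝ) (C : ℝ≥0) : Set (ProbabilityMeasure ℝ) :=
  {μ | (μ : Measure ℝ) (Set.Icc (-b) b)ᶜ = 0 ∧ (μ : Measure ℝ) ≤ C • volume}

theorem isCompact_dens (b : ℝ) (C : ℝ≥0) : IsCompact (dens b C) := by
  have h1 : IsCompact {μ : ProbabilityMeasure ℝ | ∀ n : ℕ, μ (Set.Icc (-b) b)ᶜ ≤
      (fun _ : ℕ => (0 : ℝ≥0)) n} :=
    isCompact_setOfPred_probabilityMeasure_mass_eq_compl_isCompact_le
      (u := fun _ => 0) (K := fun _ => Set.Icc (-b) b) tendsto_const_nhds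
      (fun _ => isCompact_Icc) (Or.inr monotone_const)
  have h2 : IsClosed (⋂ G : {G : Set ℝ // IsOpen G},
      {μ : ProbabilityMeasure ℝ | (μ : Measure ℝ) G.1 ≤ (C • volume : Measure ℝ) G.1}) :=
    isClosed_iInter fun G => isClosed_open_le G.1 G.2 _
  have h3 : dens b C = {μ : ProbabilityMeasure ℝ | ∀ n : ℕ, μ (Set.Icc (-b) b)ᶜ ≤
      (fun _ : ℕ => (0 : ℝ≥0)) n} ∩ (⋂ G : {G : Set ℝ // IsOpen G},
      {μ : ProbabilityMeasure ℝ | (μ : Measure ℝ) G.1 ≤ (C • volume : Measure ℝ) G.1}) := by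
    ext μ
    constructor
    · rintro ⟨ha, hb⟩
      refine ⟨fun n => ?_, ?_⟩
      · rw [ProbabilityMeasure.null_iff_toMeasure_null _ _ |>.2 ha]
      · rw [Set.mem_iInter]
        intro G
        exact hb G.1
    · rintro ⟨ha, hb⟩
      have ha' : (μ : Measure ℝ) (Set.Icc (-b) b)ᶜ = 0 := by
        rw [← ProbabilityMeasure.null_iff_toMeasure_null]
        exact le_antisymm (ha 0) bot_le
      refine ⟨ha', ?_⟩
      rw [Set.mem_iInter] at hb
      rw [Measure.le_iff]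
      intro s hs
      rw [Set.measure_eq_iInf_isOpen s (C • volume : Measure ℝ)]
      refine le_iInf fun G => le_iInf fun hsG => le_iInf fun hG => ?_
      exact (measure_mono hsG).trans (hb ⟨G, hG⟩)
  rw [h3]
  exact h1.inter_right h2

theorem dens_atom (b : ℝ) (C : ℝ≥0) (μ : ProbabilityMeasure ℝ) (hμ : μ ∈ dens b C) (r : ℝ) :
    (μ : Measure ℝ) {r} = 0 := by
  have h := hμ.2 {r}
  have h0 : (C • volume : Measure ℝ) {r} = 0 := by
    rw [Measure.smul_apply, Real.volume_singleton, smul_zero]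
  rw [h0] at h
  exact le_antisymm h bot_le

end Pool.Agent.U619.UN
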