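import Pool.Agent.U619.UN.Fam

/-! # Large coupling: short time displacement, uniformly in the coupling -/

set_option autoImplicit false
set_option linter.unusedSectionVars false

open MeasureTheory Filter Topology
open scoped BigOperators ENNReal NNReal InnerProductSpace BoundedContinuousFunction

namespace Pool.Agent.U619.UN

open Pool.Agent.H5R2.NB Pool.Agent.U619.NB

variable {d : ℕ} {c : ℝ}

/-- the constant of the large coupling bound -/
noncomputable def BB (d : ℕ) (c : ℝ) : ℝ := 2 * d * c ^ 2 + |c| + 1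

theorem BB_pos (d : ℕ) (c : ℝ) : 0 < BB d c := by
  unfold BB
  positivity

/-- a continuous function of the difference of two values of the potential -/
noncomputable def g1 (B δ : ℝ) : ℝ := 4 * B / (2 * B + |δ|)

/-- sum over the neighbours of the origin -/
noncomputable def GG (B l : ℝ) (V : Site d → ℝ) : ℝ :=
  ∑ i : Fin d, (g1 B (l * (V 0 - V (0 + Pi.single i 1))) +
    g1 B (l * (V 0 - V (0 - Pi.single i 1))))

/-- sum of the inverse differences -/
noncomputable def NN (V : Site d → ℝ) : ℝ :=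
  ∑ i : Fin d, (|V 0 - V (0 + Pi.single i 1)|⁻¹ + |V 0 - V (0 - Pi.single i 1)|⁻¹)

theorem hopf_le (f : Site d → ℂ) (hf : ∀ y, ‖f y‖ ≤ 1) (x : Site d) :
    ‖hopf c f x‖ ≤ 2 * d * |c| := by
  unfold hopf
  rw [norm_mul, Complex.norm_real, Real.norm_eq_abs]
  have h1 : ‖∑ i : Fin d, (f (x + Pi.single i 1) + f (x - Pi.single i 1))‖ ≤ 2 * d := by
    refine (norm_sum_le _ _).trans ?_
    have h2 : ∀ i ∈ (Finset.univ : Finset (Fin d)),
        ‖f (x + Pi.single i 1) + f (x - Pi.single i 1)‖ ≤ 2 := by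
      intro i _
      refine (norm_add_le _ _).trans ?_
      have a := hf (x + Pi.single i 1)
      have b := hf (x - Pi.single i 1)
      linarith
    refine (Finset.sum_le_sum h2).trans ?_
    rw [Finset.sum_const, Finset.card_univ, Fintype.card_fin, nsmul_eq_mul]
    linarith
  have h3 := abs_nonneg c
  nlinarith

theorem der_exp (v : ℝ) (t : ℝ) :
    HasDerivAt (fun s : ℝ => Complex.exp (Complex.I * v * s))
      (Complex.exp (Complex.I * v * t) * (Complex.I * v)) t := by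
  have h := ((hasDerivAt_id t).ofReal_comp.const_mul (Complex.I * (v : ℂ))).cexp
  simpa using h

theorem der_c {V : Site d → ℝ} {W : UG (L2 (Site d))} (hW : IsGrp c V W) (ψ : L2 (Site d))
    (x : Site d) (t : ℝ) : HasDerivAt (fun s : ℝ => (W.U s ψ) x)
      (-Complex.I * (hopf c (fun y => (W.U t ψ) y) x + V x * (W.U t ψ) x)) t := by
  have h := (hW ψ).2 t x
  simpa using h

theorem der_b {V : Site d → ℝ} {W : UG (L2 (Site d))} (hW : IsGrp c V W) (ψ : L2 (Site d))
    (x : Site d) (hx : V 0 ≠ V x) (t : ℝ) :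
    HasDerivAt (fun s : ℝ => Complex.exp (Complex.I * V 0 * s) * (W.U s ψ) x /
        ((V 0 - V x : ℝ) : ℂ))
      (Complex.exp (Complex.I * V 0 * t) * (Complex.I * (W.U t ψ) x -
        Complex.I * hopf c (fun y => (W.U t ψ) y) x / ((V 0 - V x : ℝ) : ℂ))) t := by
  have h := der_c hW ψ x t
  have h2 := ((der_exp (V 0) t).mul h).div_const ((V 0 - V x : ℝ) : ℂ)
  have h0 : ((V 0 - V x : ℝ) : ℂ) ≠ 0 := by
    rw [Ne, Complex.ofReal_eq_zero, sub_eq_zero]
    exact hx
  have e : Complex.exp (Complex.I * V 0 * t) * (Complex.I * (W.U t ψ) x -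
        Complex.I * hopf c (fun y => (W.U t ψ) y) x / ((V 0 - V x : ℝ) : ℂ)) =
      (Complex.exp (Complex.I * V 0 * t) * (Complex.I * V 0) * (W.U t ψ) x +
        Complex.exp (Complex.I * V 0 * t) *
        (-Complex.I * (hopf c (fun y => (W.U t ψ) y) x + V x * (W.U t ψ) x))) /
        ((V 0 - V x : ℝ) : ℂ) := by
    rw [eq_div_iff h0, mul_sub, sub_mul, mul_assoc (Complex.exp _) (_ / _),
      div_mul_cancel₀ _ h0]
    push_cast
    ring
  rw [e]
  exact h2

theorem der_a {V : Site d → ℝ} {W : UG (L2 (Site d))} (hW : IsGrp c V W) (ψ : L2 (Site d))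
    (t : ℝ) :
    HasDerivAt (fun s : ℝ => Complex.exp (Complex.I * V 0 * s) * (W.U s ψ) 0)
      (Complex.exp (Complex.I * V 0 * t) * (-Complex.I * hopf c (fun y => (W.U t ψ) y) 0)) t := by
  have h := der_c hW ψ 0 t
  have h2 := (der_exp (V 0) t).mul h
  have e : Complex.exp (Complex.I * V 0 * t) * (-Complex.I * hopf c (fun y => (W.U t ψ) y) 0) =
      Complex.exp (Complex.I * V 0 * t) * (Complex.I * V 0) * (W.U t ψ) 0 +
        Complex.exp (Complex.I * V 0 * t) *
        (-Complex.I * (hopf c (fun y => (W.U t ψ) y) 0 + V 0 * (W.U t ψ) 0)) := by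
    ring
  rw [e]
  exact h2

theorem dl_zero_zero : (dl (0 : Site d) : L2 (Site d)) 0 = 1 := by
  unfold dl
  rw [lp.coeFn_single]
  simp

theorem dl_zero_ne (x : Site d) (hx : x ≠ 0) : (dl (0 : Site d) : L2 (Site d)) x = 0 := by
  unfold dl
  rw [lp.coeFn_single]
  exact Pi.single_eq_of_ne hx _

theorem nb_ne (i : Fin d) : (0 + Pi.single i 1 : Site d) ≠ 0 ∧ (0 - Pi.single i 1 : Site d) ≠ 0 := by
  constructor
  · intro h
    have := congrFun h i
    simp at this
  · intro h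
    have := congrFun h i
    simp at this

/-- the corrected amplitude at the origin -/
noncomputable def AA (c : ℝ) (V : Site d → ℝ) (W : UG (L2 (Site d))) (s : ℝ) : ℂ :=
  Complex.exp (Complex.I * V 0 * s) * (W.U s (dl 0)) 0 +
    c * ∑ i : Fin d, (Complex.exp (Complex.I * V 0 * s) * (W.U s (dl 0)) (0 + Pi.single i 1) /
        ((V 0 - V (0 + Pi.single i 1) : ℝ) : ℂ) +
      Complex.exp (Complex.I * V 0 * s) * (W.U s (dl 0)) (0 - Pi.single i 1) /
        ((V 0 - V (0 - Pi.single i 1) : ℝ) : ℂ))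

/-- its derivative -/
noncomputable def AD (c : ℝ) (V : Site d → ℝ) (W : UG (L2 (Site d))) (t : ℝ) : ℂ :=
  -Complex.I * c * Complex.exp (Complex.I * V 0 * t) *
    ∑ i : Fin d, (hopf c (fun y => (W.U t (dl 0)) y) (0 + Pi.single i 1) /
        ((V 0 - V (0 + Pi.single i 1) : ℝ) : ℂ) +
      hopf c (fun y => (W.U t (dl 0)) y) (0 - Pi.single i 1) /
        ((V 0 - V (0 - Pi.single i 1) : ℝ) : ℂ))

theorem alg_step (E c : ℂ) (a b p q : Fin d → ℂ) :
    E * (-Complex.I * (c * ∑ i : Fin d, (a i + b i))) +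
      c * ∑ i : Fin d, (E * (Complex.I * a i - Complex.I * p i) +
        E * (Complex.I * b i - Complex.I * q i)) =
    -Complex.I * c * E * ∑ i : Fin d, (p i + q i) := by
  simp only [Finset.mul_sum]
  rw [← Finset.sum_add_distrib]
  refine Finset.sum_congr rfl fun i _ => ?_
  ring

theorem der_AA {V : Site d → ℝ} {W : UG (L2 (Site d))} (hW : IsGrp c V W)
    (hne : ∀ i : Fin d, V 0 ≠ V (0 + Pi.single i 1) ∧ V 0 ≠ V (0 - Pi.single i 1)) (t : ℝ) :
    HasDerivAt (AA c V W) (AD c V W t) t := by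
  have h1 := der_a hW (dl 0) t
  have h2 : HasDerivAt (fun s : ℝ => ∑ i : Fin d,
      (Complex.exp (Complex.I * V 0 * s) * (W.U s (dl 0)) (0 + Pi.single i 1) /
      ((V 0 - V (0 + Pi.single i 1) : ℝ) : ℂ) +
    Complex.exp (Complex.I * V 0 * s) * (W.U s (dl 0)) (0 - Pi.single i 1) /
      ((V 0 - V (0 - Pi.single i 1) : ℝ) : ℂ))) (∑ i : Fin d,
      (Complex.exp (Complex.I * V 0 * t) * (Complex.I * (W.U t (dl 0)) (0 + Pi.single i 1) -
      Complex.I * hopf c (fun y => (W.U t (dl 0)) y) (0 + Pi.single i 1) /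
        ((V 0 - V (0 + Pi.single i 1) : ℝ) : ℂ)) +
      Complex.exp (Complex.I * V 0 * t) * (Complex.I * (W.U t (dl 0)) (0 - Pi.single i 1) -
      Complex.I * hopf c (fun y => (W.U t (dl 0)) y) (0 - Pi.single i 1) /
        ((V 0 - V (0 - Pi.single i 1) : ℝ) : ℂ)))) t :=
    HasDerivAt.fun_sum fun i _ => (der_b hW (dl 0) _ (hne i).1 t).add
      (der_b hW (dl 0) _ (hne i).2 t)
  have h3 := h1.fun_add (h2.const_mul (c : ℂ))
  have e1 : hopf c (fun y => (W.U t (dl 0)) y) (0 : Site d) = c * ∑ i : Fin d,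
      ((W.U t (dl 0)) (0 + Pi.single i 1) + (W.U t (dl 0)) (0 - Pi.single i 1)) := rfl
  rw [e1] at h3
  simp only [mul_div_assoc Complex.I (hopf _ _ _)] at h3
  have key := alg_step (Complex.exp (Complex.I * V 0 * t)) (c : ℂ)
    (fun i => (W.U t (dl 0)) (0 + Pi.single i 1)) (fun i => (W.U t (dl 0)) (0 - Pi.single i 1))
    (fun i => hopf c (fun y => (W.U t (dl 0)) y) (0 + Pi.single i 1) /
        ((V 0 - V (0 + Pi.single i 1) : ℝ) : ℂ))
    (fun i => hopf c (fun y => (W.U t (dl 0)) y) (0 - Pi.single i 1) /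
        ((V 0 - V (0 - Pi.single i 1) : ℝ) : ℂ))
  unfold AD
  rw [← key]
  exact h3

theorem coord_one (W : UG (L2 (Site d))) (t : ℝ) (y : Site d) : ‖(W.U t (dl 0)) y‖ ≤ 1 := by
  refine (lp.norm_apply_le_norm two_ne_zero _ y).trans ?_
  rw [W.norm', GEN.norm_dl]

theorem exp_one (v t : ℝ) : ‖Complex.exp (Complex.I * v * t)‖ = 1 := by
  have : Complex.I * (v : ℂ) * (t : ℂ) = ((v * t : ℝ) : ℂ) * Complex.I := by
    push_cast
    ring
  rw [this, Complex.norm_exp_ofReal_mul_I]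

theorem NN_nonneg (V : Site d → ℝ) : 0 ≤ NN V := by
  unfold NN
  exact Finset.sum_nonneg fun i _ => by positivity

theorem norm_AD (V : Site d → ℝ) (W : UG (L2 (Site d))) (t : ℝ) :
    ‖AD c V W t‖ ≤ 2 * d * c ^ 2 * NN V := by
  unfold AD
  rw [norm_mul, norm_mul, norm_mul, norm_neg, Complex.norm_I, one_mul, Complex.norm_real,
    Real.norm_eq_abs, exp_one, mul_one]
  have h4 : ∀ x : Site d, ‖hopf c (fun y => (W.U t (dl 0)) y) x / ((V 0 - V x : ℝ) : ℂ)‖ ≤
      2 * d * |c| * |V 0 - V x|⁻¹ := by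
    intro x
    rw [norm_div, Complex.norm_real, Real.norm_eq_abs, div_eq_mul_inv]
    exact mul_le_mul_of_nonneg_right (hopf_le _ (coord_one W t) x) (by positivity)
  have h5 : ‖∑ i : Fin d, (hopf c (fun y => (W.U t (dl 0)) y) (0 + Pi.single i 1) /
      ((V 0 - V (0 + Pi.single i 1) : ℝ) : ℂ) +
    hopf c (fun y => (W.U t (dl 0)) y) (0 - Pi.single i 1) /
      ((V 0 - V (0 - Pi.single i 1) : ℝ) : ℂ))‖ ≤ 2 * d * |c| * NN V := by
    refine (norm_sum_le _ _).trans ?_
    unfold NN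
    rw [Finset.mul_sum]
    refine Finset.sum_le_sum fun i _ => ?_
    refine (norm_add_le _ _).trans ?_
    rw [mul_add]
    exact add_le_add (h4 _) (h4 _)
  calc |c| * _ ≤ |c| * (2 * d * |c| * NN V) := mul_le_mul_of_nonneg_left h5 (abs_nonneg c)
    _ = 2 * d * (|c| ^ 2) * NN V := by ring
    _ = _ := by rw [sq_abs]

theorem AA_zero (V : Site d → ℝ) (W : UG (L2 (Site d))) : AA c V W 0 = 1 := by
  unfold AA
  simp only [W.zero']
  rw [dl_zero_zero]
  have h7 : ∀ i : Fin d, (dl (0 : Site d) : L2 (Site d)) (0 + Pi.single i 1) = 0 :=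
    fun i => dl_zero_ne _ (nb_ne i).1
  have h8 : ∀ i : Fin d, (dl (0 : Site d) : L2 (Site d)) (0 - Pi.single i 1) = 0 :=
    fun i => dl_zero_ne _ (nb_ne i).2
  simp only [h7, h8]
  simp

theorem AA_one (V : Site d → ℝ) (W : UG (L2 (Site d))) :
    ‖AA c V W 1‖ ≤ ‖(W.U 1 (dl 0)) 0‖ + |c| * NN V := by
  unfold AA
  refine (norm_add_le _ _).trans ?_
  rw [norm_mul, exp_one, one_mul, norm_mul, Complex.norm_real, Real.norm_eq_abs]
  refine add_le_add le_rfl (mul_le_mul_of_nonneg_left ?_ (abs_nonneg c))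
  refine (norm_sum_le _ _).trans ?_
  unfold NN
  refine Finset.sum_le_sum fun i _ => ?_
  refine (norm_add_le _ _).trans ?_
  have h9 : ∀ x : Site d, ‖Complex.exp (Complex.I * V 0 * (1 : ℝ)) * (W.U 1 (dl 0)) x /
      ((V 0 - V x : ℝ) : ℂ)‖ ≤ |V 0 - V x|⁻¹ := by
    intro x
    rw [norm_div, norm_mul, exp_one, one_mul, Complex.norm_real, Real.norm_eq_abs,
      div_eq_mul_inv]
    calc ‖(W.U 1 (dl 0)) x‖ * |V 0 - V x|⁻¹ ≤ 1 * |V 0 - V x|⁻¹ :=
          mul_le_mul_of_nonneg_right (coord_one W 1 x) (by positivity)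
      _ = _ := one_mul _
  exact add_le_add (h9 _) (h9 _)

theorem orig_ge {V : Site d → ℝ} {W : UG (L2 (Site d))} (hW : IsGrp c V W)
    (hne : ∀ i : Fin d, V 0 ≠ V (0 + Pi.single i 1) ∧ V 0 ≠ V (0 - Pi.single i 1)) :
    1 - BB d c * NN V ≤ ‖(W.U 1 (dl 0)) 0‖ := by
  have hmv : ‖AA c V W 1 - AA c V W 0‖ ≤ 2 * d * c ^ 2 * NN V := by
    have h6 := Convex.norm_image_sub_le_of_norm_hasDerivWithin_le (f := AA c V W)
      (f' := AD c V W) (s := Set.univ) (x := 0) (y := 1) (C := 2 * d * c ^ 2 * NN V)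
      (fun x _ => (der_AA hW hne x).hasDerivWithinAt) (fun x _ => norm_AD V W x) convex_univ
      (Set.mem_univ _) (Set.mem_univ _)
    simpa using h6
  have hA1 := AA_one (c := c) V W
  have h10 : (1 : ℝ) ≤ ‖AA c V W 1‖ + ‖AA c V W 1 - AA c V W 0‖ := by
    have h11 : ‖AA c V W 0‖ ≤ ‖AA c V W 1‖ + ‖AA c V W 1 - AA c V W 0‖ := by
      have h12 : AA c V W 0 = AA c V W 1 - (AA c V W 1 - AA c V W 0) := by ring
      calc ‖AA c V W 0‖ = ‖AA c V W 1 - (AA c V W 1 - AA c V W 0)‖ := by rw [← h12]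
        _ ≤ _ := norm_sub_le _ _
    have h13 : ‖AA c V W 0‖ = 1 := by rw [AA_zero, norm_one]
    rwa [h13] at h11
  have hB : BB d c * NN V = 2 * d * c ^ 2 * NN V + |c| * NN V + NN V := by
    unfold BB
    ring
  have hN := NN_nonneg V
  rw [hB]
  linarith

theorem g1_nonneg (B δ : ℝ) (hB : 0 < B) : 0 ≤ g1 B δ := by
  unfold g1
  positivity

theorem GG_nonneg (B l : ℝ) (hB : 0 < B) (V : Site d → ℝ) : 0 ≤ GG B l V := by
  unfold GG
  exact Finset.sum_nonneg fun i _ => add_nonneg (g1_nonneg _ _ hB) (g1_nonneg _ _ hB)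

theorem g1_one (B δ : ℝ) (hB : 0 < B) (hδ : |δ| ≤ 2 * B) : 1 ≤ g1 B δ := by
  unfold g1
  rw [le_div_iff₀ (by positivity)]
  linarith

theorem g1_inv (B δ : ℝ) (hB : 0 < B) (hδ : 2 * B ≤ |δ|) : 2 * (B * |δ|⁻¹) ≤ g1 B δ := by
  unfold g1
  have h0 : 0 < |δ| := by linarith
  have e : 2 * (B * |δ|⁻¹) = 4 * B / (2 * |δ|) := by
    field_simp
    ring
  rw [e]
  exact div_le_div_of_nonneg_left (by positivity) (by positivity) (by linarith)

theorem GG_term (B l : ℝ) (hB : 0 < B) (V : Site d → ℝ) (i : Fin d) :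
    g1 B (l * (V 0 - V (0 + Pi.single i 1))) + g1 B (l * (V 0 - V (0 - Pi.single i 1))) ≤
      GG B l V := by
  have h := Finset.single_le_sum (s := Finset.univ) (f := fun i : Fin d =>
    g1 B (l * (V 0 - V (0 + Pi.single i 1))) + g1 B (l * (V 0 - V (0 - Pi.single i 1))))
    (fun i _ => add_nonneg (g1_nonneg _ _ hB) (g1_nonneg _ _ hB)) (Finset.mem_univ i)
  exact h

theorem NN_GG (B : ℝ) (hB : 0 < B) (V : Site d → ℝ)
    (h : ∀ i : Fin d, 2 * B ≤ |V 0 - V (0 + Pi.single i 1)| ∧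
      2 * B ≤ |V 0 - V (0 - Pi.single i 1)|) : 2 * (B * NN V) ≤ GG B 1 V := by
  unfold NN GG
  rw [Finset.mul_sum, Finset.mul_sum]
  refine Finset.sum_le_sum fun i _ => ?_
  have a := g1_inv B (V 0 - V (0 + Pi.single i 1)) hB (h i).1
  have b := g1_inv B (V 0 - V (0 - Pi.single i 1)) hB (h i).2
  rw [one_mul, one_mul, mul_add, mul_add]
  exact add_le_add a b

theorem real_step (z G x : ℝ) (h : 1 - x ≤ z) (hx : 2 * x ≤ G) : 1 - z ^ 2 ≤ G := by
  have h1 := sq_nonneg (1 - z)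
  have h2 : (1 - z) ^ 2 = 1 - 2 * z + z ^ 2 := by ring
  linarith

/-- the mass outside the origin at time one -/
theorem orig_mass {V : Site d → ℝ} {W : UG (L2 (Site d))} (hW : IsGrp c V W) :
    1 - ‖(W.U 1 (dl 0)) 0‖ ^ 2 ≤ GG (BB d c) 1 V := by
  have hB := BB_pos d c
  generalize hBB : BB d c = B at hB
  have hone : (∃ i : Fin d, 1 ≤ g1 B (1 * (V 0 - V (0 + Pi.single i 1))) +
      g1 B (1 * (V 0 - V (0 - Pi.single i 1)))) →
      1 - ‖(W.U 1 (dl 0)) 0‖ ^ 2 ≤ GG B 1 V := by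
    rintro ⟨i, hi⟩
    have h1 := GG_term B 1 hB V i
    have h2 := sq_nonneg ‖(W.U 1 (dl 0)) 0‖
    linarith
  by_cases hsmall : ∀ i : Fin d, 2 * B ≤ |V 0 - V (0 + Pi.single i 1)| ∧
      2 * B ≤ |V 0 - V (0 - Pi.single i 1)|
  · have hne : ∀ i : Fin d, V 0 ≠ V (0 + Pi.single i 1) ∧ V 0 ≠ V (0 - Pi.single i 1) := by
      intro i
      constructor
      · intro h
        have := (hsmall i).1
        rw [h, sub_self, abs_zero] at this
        linarith
      · intro h
        have := (hsmall i).2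
        rw [h, sub_self, abs_zero] at this
        linarith
    have h1 := orig_ge hW hne
    rw [hBB] at h1
    exact real_step _ _ _ h1 (NN_GG B hB V hsmall)
  · rw [not_forall] at hsmall
    obtain ⟨i, hi⟩ := hsmall
    refine hone ⟨i, ?_⟩
    rw [one_mul, one_mul]
    by_cases h1 : 2 * B ≤ |V 0 - V (0 + Pi.single i 1)|
    · have h4 : ¬ 2 * B ≤ |V 0 - V (0 - Pi.single i 1)| := fun h => hi ⟨h1, h⟩
      have h2 := g1_one B (V 0 - V (0 - Pi.single i 1)) hB (not_le.1 h4).le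
      have h3 := g1_nonneg B (V 0 - V (0 + Pi.single i 1)) hB
      linarith
    · have h2 := g1_one B (V 0 - V (0 + Pi.single i 1)) hB (not_le.1 h1).le
      have h3 := g1_nonneg B (V 0 - V (0 - Pi.single i 1)) hB
      linarith

end Pool.Agent.U619.UN
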