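import Pool.Agent.U619.UN.Big

/-! # Large coupling: uniformity in all couplings bounded away from zero -/

set_option autoImplicit false
set_option linter.unusedSectionVars false

open MeasureTheory Filter Topology
open scoped BigOperators ENNReal NNReal InnerProductSpace BoundedContinuousFunction

namespace Pool.Agent.U619.UN

open Pool.Agent.H5R2.NB Pool.Agent.U619.NB

variable {d : ℕ} {c : ℝ}

theorem tsum_split (f : Site d → ℝ≥0∞) :
    f 0 + ∑' x : Site d, (if x = 0 then 0 else f x) = ∑' x : Site d, f x := by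
  have h := ENNReal.tsum_eq_add_tsum_ite (f := f) (0 : Site d)
  rw [h]
  congr 1
  refine tsum_congr fun x => ?_
  by_cases hx : x = 0
  · rw [if_pos hx, if_pos hx]
  · rw [if_neg hx, if_neg hx]

theorem Q_le {V : Site d → ℝ} {W : UG (L2 (Site d))} (hW : IsGrp c V W) :
    ∑' x : Site d, (if x = 0 then 0 else ‖(W.U 1 (dl 0)) x‖ₑ ^ 2) ≤
      ENNReal.ofReal (GG (BB d c) 1 V) := by
  have h5 := orig_mass hW
  generalize hu : W.U 1 (dl 0) = u at h5 ⊢
  have h0 : ‖u‖ₑ ^ 2 = 1 := by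
    rw [← hu, ← ofReal_norm, W.norm', GEN.norm_dl]
    simp
  have h1 := tsum_split (fun x => ‖u x‖ₑ ^ 2)
  rw [MOM.enorm_sq, h0] at h1
  have h2 : ‖u 0‖ₑ ^ 2 = ENNReal.ofReal (‖u 0‖ ^ 2) := by
    rw [ENNReal.ofReal_pow (norm_nonneg _), ofReal_norm]
  rw [add_comm] at h1
  have h3 := ENNReal.eq_sub_of_add_eq (ENNReal.pow_ne_top enorm_ne_top) h1
  rw [h3, h2, ← ENNReal.ofReal_one, ← ENNReal.ofReal_sub _ (by positivity)]
  exact ENNReal.ofReal_le_ofReal h5

theorem M2_split (u : L2 (Site d)) (R : ℝ) (hR : 0 < R) :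
    M2 u ≤ ENNReal.ofReal (R ^ 2) * (∑' x : Site d, (if x = 0 then 0 else ‖u x‖ₑ ^ 2)) +
      ENNReal.ofReal ((R ^ 2)⁻¹) * Mp 4 u := by
  unfold M2 Mp
  rw [← ENNReal.tsum_mul_left, ← ENNReal.tsum_mul_left, ← ENNReal.tsum_add]
  refine ENNReal.tsum_le_tsum fun x => ?_
  by_cases hx : x = 0
  · have : ∑ i : Fin d, (x i : ℝ) ^ 2 = 0 := by
      rw [hx]
      simp
    rw [this]
    simp
  · rw [if_neg hx, ← mul_assoc, ← add_mul]
    refine mul_le_mul_left ?_ _
    have hq : 0 ≤ ∑ i : Fin d, (x i : ℝ) ^ 2 := Finset.sum_nonneg fun i _ => sq_nonneg _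
    generalize ∑ i : Fin d, (x i : ℝ) ^ 2 = q at hq
    have e : q ^ ((4 : ℝ) / 2) = q ^ 2 := by
      rw [show ((4 : ℝ) / 2) = ((2 : ℕ) : ℝ) by norm_num, Real.rpow_natCast]
    rw [e, ← ENNReal.ofReal_mul (by positivity), ← ENNReal.ofReal_add (by positivity)
      (by positivity)]
    refine ENNReal.ofReal_le_ofReal ?_
    have hR2 : 0 < R ^ 2 := by positivity
    rcases le_total q (R ^ 2) with h | h
    · have : 0 ≤ (R ^ 2)⁻¹ * q ^ 2 := by positivity
      linarith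
    · have h1 : q ≤ (R ^ 2)⁻¹ * q ^ 2 := by
        rw [inv_mul_eq_div, le_div_iff₀ hR2, sq q]
        exact mul_le_mul_of_nonneg_left h hq
      linarith

theorem M4_one (hd : 0 < d) (c : ℝ) : ∃ C : ℝ≥0∞, C ≠ ∞ ∧ ∀ (V : Site d → ℝ)
    (W : UG (L2 (Site d))), IsGrp c V W → Mp 4 (W.U 1 (dl 0)) ≤ C := by
  obtain ⟨L, K, hL, hK, h⟩ := high_evo hd c 4 (by norm_num)
  have hv : ∀ j : Fin d, ∃ v : L2 (Site d) →L[ℂ] L2 (Site d), IsVel c j v :=
    fun j => (t_OPS d).2.2 c j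
  choose v hv using hv
  refine ⟨ENNReal.ofReal ((L * 1) ^ ((4 : ℝ) - 2)) * (∑ j : Fin d, ENNReal.ofReal (‖v j‖ ^ 2)) +
    ENNReal.ofReal K * ∑ j : Fin d, EE j (dl 0), ?_, fun V W hW => ?_⟩
  · refine ENNReal.add_ne_top.2 ⟨ENNReal.mul_ne_top ENNReal.ofReal_ne_top
      (ENNReal.sum_ne_top.2 fun j _ => ENNReal.ofReal_ne_top),
      ENNReal.mul_ne_top ENNReal.ofReal_ne_top (ENNReal.sum_ne_top.2 fun j _ => EE_dl j 0)⟩
  · refine (h V W hW (dl 0) 1 one_pos).trans ?_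
    gcongr
    rw [second_eq]
    refine Finset.sum_le_sum fun j _ => ?_
    have h1 := (t_MOM ALL.a_UN t_OPS) d c V W hW j (v j) (hv j) 1
    have h2 : Pool.Agent.R988.NQ.m2 j (W.U 1 (dl 0)) = ‖∫ s in (0 : ℝ)..1, W.U (-s) (v j (W.U s (dl 0)))‖ₑ ^ 2 := h1
    rw [h2, ← ofReal_norm, ← ENNReal.ofReal_pow (norm_nonneg _)]
    refine ENNReal.ofReal_le_ofReal (pow_le_pow_left₀ (norm_nonneg _) ?_ 2)
    have h3 := intervalIntegral.norm_integral_le_of_norm_le_const (a := (0 : ℝ)) (b := 1)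
      (f := fun s => W.U (-s) (v j (W.U s (dl 0)))) (C := ‖v j‖)
      (fun s _ => MAIN.norm_integrand W (v j) s)
    simpa using h3

/-- the displacement at time one is controlled by the differences at the origin -/
theorem M2_one (hd : 0 < d) (c : ℝ) : ∃ C : ℝ≥0∞, C ≠ ∞ ∧ ∀ (V : Site d → ℝ)
    (W : UG (L2 (Site d))), IsGrp c V W → ∀ R : ℝ, 0 < R → M2 (W.U 1 (dl 0)) ≤
      ENNReal.ofReal (R ^ 2) * ENNReal.ofReal (GG (BB d c) 1 V) +
        ENNReal.ofReal ((R ^ 2)⁻¹) * C := by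
  obtain ⟨C, hC, h⟩ := M4_one hd c
  refine ⟨C, hC, fun V W hW R hR => ?_⟩
  refine (M2_split _ R hR).trans ?_
  gcongr
  · exact Q_le hW
  · exact h V W hW

/-! ### the mean of `GG` -/

theorem g1_le (B δ : ℝ) (hB : 0 < B) : g1 B δ ≤ 2 := by
  unfold g1
  rw [div_le_iff₀ (by positivity)]
  have := abs_nonneg δ
  linarith

theorem g1_anti (B : ℝ) (hB : 0 < B) (δ δ' : ℝ) (h : |δ| ≤ |δ'|) : g1 B δ' ≤ g1 B δ := by
  unfold g1
  exact div_le_div_of_nonneg_left (by positivity) (by positivity) (by linarith)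

theorem continuous_g1 (B : ℝ) (hB : 0 < B) : Continuous (g1 B) := by
  unfold g1
  refine Continuous.div continuous_const (by fun_prop) fun δ => ?_
  have := abs_nonneg δ
  positivity

theorem GG_le (B l : ℝ) (hB : 0 < B) (V : Site d → ℝ) : GG B l V ≤ 4 * d := by
  unfold GG
  have h : ∀ i ∈ (Finset.univ : Finset (Fin d)), g1 B (l * (V 0 - V (0 + Pi.single i 1))) +
    g1 B (l * (V 0 - V (0 - Pi.single i 1))) ≤ 4 := by
    intro i _
    have a := g1_le B (l * (V 0 - V (0 + Pi.single i 1))) hB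
    have b := g1_le B (l * (V 0 - V (0 - Pi.single i 1))) hB
    linarith
  refine (Finset.sum_le_sum h).trans ?_
  rw [Finset.sum_const, Finset.card_univ, Fintype.card_fin, nsmul_eq_mul]
  linarith

theorem GG_anti (B : ℝ) (hB : 0 < B) (l l' : ℝ) (h : |l| ≤ |l'|) (V : Site d → ℝ) :
    GG B l' V ≤ GG B l V := by
  unfold GG
  refine Finset.sum_le_sum fun i _ => add_le_add ?_ ?_
  · refine g1_anti B hB _ _ ?_
    rw [abs_mul, abs_mul]
    exact mul_le_mul_of_nonneg_right h (abs_nonneg _)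
  · refine g1_anti B hB _ _ ?_
    rw [abs_mul, abs_mul]
    exact mul_le_mul_of_nonneg_right h (abs_nonneg _)

theorem continuous_GG (B l : ℝ) (hB : 0 < B) : Continuous (GG (d := d) B l) := by
  unfold GG
  have hg := continuous_g1 B hB
  refine continuous_finsetSum _ fun i _ => Continuous.add ?_ ?_
  · exact hg.comp (by fun_prop)
  · exact hg.comp (by fun_prop)

theorem GG_aff (B a l : ℝ) (ω : Site d → ℝ) : GG B 1 (fun x => a + l * ω x) = GG B l ω := by
  unfold GG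
  refine Finset.sum_congr rfl fun i _ => ?_
  congr 2 <;> ring

/-- the mean of `GG` -/
noncomputable def IG (d : ℕ) (B l : ℝ) (μ : ProbabilityMeasure ℝ) : ℝ≥0∞ :=
  ∫⁻ V : Site d → ℝ, ENNReal.ofReal (GG B l V) ∂(PP d (μ : Measure ℝ))

theorem continuous_IG (d : ℕ) (B l : ℝ) (hB : 0 < B) : Continuous (IG d B l) := by
  have hG := continuous_GG (d := d) B l hB
  let f : (Site d → ℝ) →ᵇ ℝ≥0 := BoundedContinuousFunction.mkOfBound
    ⟨fun V => Real.toNNReal (GG B l V), continuous_real_toNNReal.comp hG⟩ (4 * d) (by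
      intro x y
      rw [NNReal.dist_eq]
      simp only [ContinuousMap.coe_mk]
      rw [Real.coe_toNNReal _ (GG_nonneg B l hB x), Real.coe_toNNReal _ (GG_nonneg B l hB y)]
      have a1 := GG_le B l hB x
      have a2 := GG_le B l hB y
      have a3 := GG_nonneg B l hB x
      have a4 := GG_nonneg B l hB y
      rw [abs_le]
      constructor <;> linarith)
  have h := (ProbabilityMeasure.continuous_iff_forall_continuous_lintegral
    (μs := pw (Site d))).1 (continuous_pw (Site d)) f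
  exact h

theorem ae_ne (μ : Measure ℝ) [IsProbabilityMeasure μ] (hμ : ∀ r : ℝ, μ {r} = 0) (y : Site d)
    (hy : y ≠ 0) : ∀ᵐ V ∂(PP d μ), V 0 ≠ V y := by
  have hmp := (t_RES d μ).1
  have hP : IsProbabilityMeasure (PP d μ) := by
    unfold PP
    infer_instance
  have hS : MeasurableSet {V : Site d → ℝ | V 0 ≠ V y} :=
    (measurableSet_eq_fun (measurable_pi_apply 0) (measurable_pi_apply y)).compl
  rw [← hmp.map_eq, ae_map_iff hmp.measurable.aemeasurable hS]
  have hS2 : MeasurableSet {p : (Site d → ℝ) × ℝ | p.2 = p.1 y} :=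
    measurableSet_eq_fun measurable_snd ((measurable_pi_apply y).comp measurable_fst)
  have h1 : ((PP d μ).prod μ) {p : (Site d → ℝ) × ℝ | p.2 = p.1 y} = 0 := by
    rw [Measure.measure_prod_null hS2]
    refine Eventually.of_forall fun V => ?_
    have : Prod.mk V ⁻¹' {p : (Site d → ℝ) × ℝ | p.2 = p.1 y} = {V y} := by
      ext r
      simp
    simp only [this, hμ, Pi.zero_apply]
  rw [ae_iff]
  refine measure_mono_null ?_ h1
  intro p hp
  simp only [Set.mem_ofPred_eq, not_not] at hp ⊢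
  rw [Function.update_self, Function.update_of_ne hy] at hp
  exact hp

theorem g1_tendsto (B δ : ℝ) (hδ : δ ≠ 0) :
    Tendsto (fun n : ℕ => g1 B ((n : ℝ) * δ)) atTop (𝓝 0) := by
  unfold g1
  refine Tendsto.div_atTop tendsto_const_nhds ?_
  refine tendsto_atTop_add_const_left _ _ ?_
  have h1 : ∀ n : ℕ, |(n : ℝ) * δ| = (n : ℝ) * |δ| := by
    intro n
    rw [abs_mul, Nat.abs_cast]
  simp only [h1]
  exact tendsto_natCast_atTop_atTop.atTop_mul_const (abs_pos.2 hδ)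

theorem tendsto_IG (B : ℝ) (hB : 0 < B) (μ : ProbabilityMeasure ℝ)
    (hμ : ∀ r : ℝ, (μ : Measure ℝ) {r} = 0) :
    Tendsto (fun n : ℕ => IG d B n μ) atTop (𝓝 0) := by
  have hP : IsProbabilityMeasure (PP d (μ : Measure ℝ)) := by
    unfold PP
    infer_instance
  have h : Tendsto (fun n : ℕ => ∫⁻ V : Site d → ℝ, ENNReal.ofReal (GG B n V)
      ∂(PP d (μ : Measure ℝ))) atTop (𝓝 (∫⁻ _V : Site d → ℝ, 0 ∂(PP d (μ : Measure ℝ)))) := by
    refine tendsto_lintegral_of_dominated_convergence (fun _ => ENNReal.ofReal (4 * d)) ?_ ?_ ?_ ?_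
    · intro n
      exact (ENNReal.continuous_ofReal.comp (continuous_GG B n hB)).measurable
    · intro n
      exact Eventually.of_forall fun V => ENNReal.ofReal_le_ofReal (GG_le B n hB V)
    · rw [lintegral_const, measure_univ, mul_one]
      exact ENNReal.ofReal_ne_top
    · have hall : ∀ᵐ V ∂(PP d (μ : Measure ℝ)), ∀ i : Fin d,
          V 0 ≠ V (0 + Pi.single i 1) ∧ V 0 ≠ V (0 - Pi.single i 1) := by
        rw [ae_all_iff]
        intro i
        exact (ae_ne _ hμ _ (nb_ne i).1).and (ae_ne _ hμ _ (nb_ne i).2)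
      filter_upwards [hall] with V hV
      have h1 : Tendsto (fun n : ℕ => GG B n V) atTop (𝓝 0) := by
        unfold GG
        have h2 := tendsto_finsetSum (Finset.univ : Finset (Fin d)) (fun i _ =>
          (g1_tendsto B (V 0 - V (0 + Pi.single i 1)) (sub_ne_zero.2 (hV i).1)).add
            (g1_tendsto B (V 0 - V (0 - Pi.single i 1)) (sub_ne_zero.2 (hV i).2)))
        simpa using h2
      have h3 := (ENNReal.continuous_ofReal.tendsto 0).comp h1
      rw [ENNReal.ofReal_zero] at h3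
      exact h3
  rw [lintegral_zero] at h
  exact h

theorem IG_anti (B : ℝ) (hB : 0 < B) (l l' : ℝ) (h : |l| ≤ |l'|) (μ : ProbabilityMeasure ℝ) :
    IG d B l' μ ≤ IG d B l μ :=
  lintegral_mono fun V => ENNReal.ofReal_le_ofReal (GG_anti B hB l l' h V)

/-- the mean of `GG` tends to zero uniformly on compact sets of laws without atoms -/
theorem unif_IG (B : ℝ) (hB : 0 < B) (K : Set (ProbabilityMeasure ℝ)) (hK : IsCompact K)
    (hat : ∀ μ ∈ K, ∀ r : ℝ, (μ : Measure ℝ) {r} = 0) (η : ℝ≥0∞) (hη : 0 < η) :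
    ∃ Λ : ℝ, 0 ≤ Λ ∧ ∀ l : ℝ, Λ ≤ |l| → ∀ μ ∈ K, IG d B l μ ≤ η := by
  have h := hK.induction_on (p := fun S : Set (ProbabilityMeasure ℝ) =>
    ∃ Λ : ℝ, 0 ≤ Λ ∧ ∀ l : ℝ, Λ ≤ |l| → ∀ μ ∈ S, IG d B l μ ≤ η) ?_ ?_ ?_ ?_
  · exact h
  · exact ⟨0, le_rfl, fun l _ μ hμ => absurd hμ (Set.notMem_empty _)⟩
  · rintro s t hst ⟨Λ, h0, h⟩
    exact ⟨Λ, h0, fun l hl μ hμ => h l hl μ (hst hμ)⟩
  · rintro s t ⟨Λ, h0, h⟩ ⟨Λ', h0', h'⟩
    refine ⟨max Λ Λ', le_max_of_le_left h0, fun l hl μ hμ => ?_⟩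
    rcases hμ with hμ | hμ
    · exact h l ((le_max_left _ _).trans hl) μ hμ
    · exact h' l ((le_max_right _ _).trans hl) μ hμ
  · intro μ0 hμ0
    obtain ⟨n, hn⟩ := ((tendsto_IG (d := d) B hB μ0 (hat μ0 hμ0)).eventually
      (gt_mem_nhds hη)).exists
    refine ⟨{μ | IG d B n μ < η}, ?_, (n : ℝ), Nat.cast_nonneg n, fun l hl μ hμ => ?_⟩
    · exact mem_nhdsWithin_of_mem_nhds
        ((isOpen_lt (continuous_IG d B n hB) continuous_const).mem_nhds hn)
    · refine (IG_anti B hB n l ?_ μ).trans (le_of_lt hμ)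
      rw [Nat.abs_cast]
      exact hl

end Pool.Agent.U619.UN
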