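import Pool.Agent.U619.UN.Unif

/-! # Uniformity in the coupling and in the law; compact families of laws -/

set_option autoImplicit false
set_option linter.unusedSectionVars false

open MeasureTheory Filter Topology
open scoped BigOperators ENNReal NNReal InnerProductSpace BoundedContinuousFunction

namespace Pool.Agent.U619.UN

open Pool.Agent.H5R2.NB Pool.Agent.U619.NB

/-- the law of `a + l ω` -/
noncomputable def aff (a : ℝ) (p : ℝ × ProbabilityMeasure ℝ) : ProbabilityMeasure ℝ :=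
  (scl p).map (f := fun x : ℝ => a + x) (measurable_const_add a).aemeasurable

theorem continuous_aff (a : ℝ) : Continuous (aff a) :=
  (ProbabilityMeasure.continuous_map (continuous_const.add continuous_id :
    Continuous fun x : ℝ => a + x)).comp continuous_scl

theorem aff_coe (a l : ℝ) (μ : ProbabilityMeasure ℝ) :
    ((aff a (l, μ) : ProbabilityMeasure ℝ) : Measure ℝ) =
      (μ : Measure ℝ).map (fun r : ℝ => a + l * r) := by
  show Measure.map (fun x : ℝ => a + x) (Measure.map (fun x : ℝ => l * x) (μ : Measure ℝ)) = _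
  rw [Measure.map_map (by fun_prop) (by fun_prop)]
  rfl

theorem aff_ne (a l : ℝ) (hl : l ≠ 0) (μ : ProbabilityMeasure ℝ)
    (hμ : ∀ κ : ℝ, (μ : Measure ℝ) {κ} ≠ 1) (κ : ℝ) :
    ((aff a (l, μ) : ProbabilityMeasure ℝ) : Measure ℝ) {κ} ≠ 1 := by
  rw [aff_coe, Measure.map_apply (by fun_prop) (measurableSet_singleton κ)]
  have : (fun r : ℝ => a + l * r) ⁻¹' {κ} = {(κ - a) / l} := by
    ext r
    simp only [Set.mem_preimage, Set.mem_singleton_iff]
    rw [eq_div_iff hl]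
    constructor <;> intro h <;> linarith
  rw [this]
  exact hμ _

theorem compact_coupling (l1 l2 : ℝ) : IsCompact {l : ℝ | l1 ≤ |l| ∧ |l| ≤ l2} := by
  have h1 : IsClosed {l : ℝ | l1 ≤ |l| ∧ |l| ≤ l2} :=
    (isClosed_le continuous_const continuous_abs).inter
      (isClosed_le continuous_abs continuous_const)
  refine (isCompact_Icc (a := -l2) (b := l2)).of_isClosed_subset h1 ?_
  intro l hl
  exact abs_le.1 hl.2

theorem unif_coupling {d : ℕ} (hd : 0 < d) {c : ℝ} {ev : (Site d → ℝ) → UG (L2 (Site d))}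
    (hev : ∀ V, IsGrp c V (ev V)) (a : ℝ) (K : Set (ProbabilityMeasure ℝ)) (hK : IsCompact K)
    (hnd : ∀ μ ∈ K, ∀ κ : ℝ, (μ : Measure ℝ) {κ} ≠ 1) (l1 l2 : ℝ) (hl : 0 < l1) (p : ℝ)
    (hp : 0 < p) (ε : ℝ) (hε : 0 < ε) :
    ∃ t₀ : ℝ, ∀ t : ℝ, t₀ ≤ t → ∀ μ ∈ K, ∀ l : ℝ, l1 ≤ |l| → |l| ≤ l2 →
      ∫⁻ V, Mp p ((ev V).U t (dl 0)) ∂(PP d ((aff a (l, μ) : ProbabilityMeasure ℝ) :
        Measure ℝ)) ≤ ENNReal.ofReal (ε * t ^ p) := by
  have hK' : IsCompact (aff a '' ({l : ℝ | l1 ≤ |l| ∧ |l| ≤ l2} ×ˢ K)) :=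
    ((compact_coupling l1 l2).prod hK).image (continuous_aff a)
  have hnd' : ∀ μ ∈ aff a '' ({l : ℝ | l1 ≤ |l| ∧ |l| ≤ l2} ×ˢ K), ∀ κ : ℝ,
      (μ : Measure ℝ) {κ} ≠ 1 := by
    rintro _ ⟨⟨l, μ⟩, ⟨hl1, hμ⟩, rfl⟩ κ
    refine aff_ne a l ?_ μ (hnd μ hμ) κ
    intro h0
    have h1 : l1 ≤ |l| := hl1.1
    rw [h0, abs_zero] at h1
    linarith
  have h := unifp hd hev _ hK' hnd' p hp
  have hε' : 0 < ENNReal.ofReal ε := ENNReal.ofReal_pos.2 hε
  obtain ⟨t₀, ht₀⟩ := eventually_atTop.1 ((ENNReal.tendsto_nhds_zero.1 h _ hε').and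
    (eventually_gt_atTop (0 : ℝ)))
  refine ⟨t₀, fun t ht μ hμ l hl1 hl2 => ?_⟩
  obtain ⟨h1, h2⟩ := ht₀ t ht
  have h3 : ENNReal.ofReal (t ^ p) ≠ 0 := by
    rw [Ne, ENNReal.ofReal_eq_zero, not_le]
    positivity
  rw [ENNReal.div_le_iff h3 ENNReal.ofReal_ne_top, ← ENNReal.ofReal_mul hε.le] at h1
  refine le_trans ?_ h1
  exact le_iSup₂ (f := fun (μ : ProbabilityMeasure ℝ)
    (_ : μ ∈ aff a '' ({l : ℝ | l1 ≤ |l| ∧ |l| ≤ l2} ×ˢ K)) =>
      ∫⁻ V, Mp p ((ev V).U t (dl 0)) ∂(PP d (μ : Measure ℝ))) (aff a (l, μ))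
    ⟨(l, μ), ⟨⟨hl1, hl2⟩, hμ⟩, rfl⟩

/-! ### laws on `[-b,b]` with variance at least `κ²` -/

/-- the laws on `[-b, b]` with variance at least `κ²` -/
def spread (b κ : ℝ) : Set (ProbabilityMeasure ℝ) :=
  {μ | (μ : Measure ℝ) (Set.Icc (-b) b)ᶜ = 0 ∧
    ∀ x : ℝ, κ ^ 2 ≤ ∫ y, (y - x) ^ 2 ∂(μ : Measure ℝ)}

/-- `(y - x)²` with `y` projected to `[-b, b]` -/
noncomputable def cl (b x : ℝ) : ℝ →ᵇ ℝ :=
  BoundedContinuousFunction.ofNormedAddCommGroup
    (fun y : ℝ => (max (-b) (min y b) - x) ^ 2) (by fun_prop) ((|b| + |x|) ^ 2) (by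
      intro y
      rw [Real.norm_eq_abs, abs_of_nonneg (sq_nonneg _)]
      rw [← sq_abs]
      refine pow_le_pow_left₀ (abs_nonneg _) ?_ 2
      refine (abs_sub _ _).trans (add_le_add ?_ le_rfl)
      rw [abs_le]
      constructor
      · refine le_trans (neg_le_neg (le_abs_self b)) (le_max_left _ _)
      · exact max_le (neg_le_abs b) ((min_le_right _ _).trans (le_abs_self b)))

theorem cl_int (b x : ℝ) (μ : ProbabilityMeasure ℝ)
    (hμ : (μ : Measure ℝ) (Set.Icc (-b) b)ᶜ = 0) :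
    ∫ y, cl b x y ∂(μ : Measure ℝ) = ∫ y, (y - x) ^ 2 ∂(μ : Measure ℝ) := by
  refine integral_congr_ae ?_
  have h1 : ∀ᵐ y ∂(μ : Measure ℝ), y ∈ Set.Icc (-b) b := by
    rw [ae_iff]
    exact hμ
  filter_upwards [h1] with y hy
  show (max (-b) (min y b) - x) ^ 2 = (y - x) ^ 2
  rw [min_eq_left hy.2, max_eq_right hy.1]

theorem isClosed_open_le (G : Set ℝ) (hG : IsOpen G) (a : ℝ≥0∞) :
    IsClosed {μ : ProbabilityMeasure ℝ | (μ : Measure ℝ) G ≤ a} := by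
  refine IsSeqClosed.isClosed fun μs μ h hlim => ?_
  have h1 := ProbabilityMeasure.le_liminf_measure_open_of_tendsto hlim hG
  refine h1.trans ?_
  exact liminf_le_of_frequently_le' (Eventually.of_forall h).frequently

theorem isCompact_spread (b κ : ℝ) : IsCompact (spread b κ) := by
  have h1 : IsCompact {μ : ProbabilityMeasure ℝ | ∀ n : ℕ, μ (Set.Icc (-b) b)ᶜ ≤
      (fun _ : ℕ => (0 : ℝ≥0)) n} :=
    isCompact_setOfPred_probabilityMeasure_mass_eq_compl_isCompact_le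
      (u := fun _ => 0) (K := fun _ => Set.Icc (-b) b) tendsto_const_nhds
      (fun _ => isCompact_Icc) (Or.inr monotone_const)
  have h2 : IsClosed {μ : ProbabilityMeasure ℝ | ∀ x : ℝ, κ ^ 2 ≤ ∫ y, cl b x y ∂(μ : Measure ℝ)} := by
    have : {μ : ProbabilityMeasure ℝ | ∀ x : ℝ, κ ^ 2 ≤ ∫ y, cl b x y ∂(μ : Measure ℝ)} =
        ⋂ x : ℝ, {μ : ProbabilityMeasure ℝ | κ ^ 2 ≤ ∫ y, cl b x y ∂(μ : Measure ℝ)} := by
      ext μ
      simp
    rw [this]
    refine isClosed_iInter fun x => isClosed_le continuous_const ?_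
    exact (ProbabilityMeasure.continuous_iff_forall_continuous_integral
      (μs := fun μ : ProbabilityMeasure ℝ => μ)).1 continuous_id (cl b x)
  have h3 : spread b κ = {μ : ProbabilityMeasure ℝ | ∀ n : ℕ, μ (Set.Icc (-b) b)ᶜ ≤
      (fun _ : ℕ => (0 : ℝ≥0)) n} ∩
      {μ : ProbabilityMeasure ℝ | ∀ x : ℝ, κ ^ 2 ≤ ∫ y, cl b x y ∂(μ : Measure ℝ)} := by
    ext μ
    simp only [spread, Set.mem_inter_iff]
    constructor
    · rintro ⟨ha, hb⟩
      refine ⟨fun n => ?_, fun x => ?_⟩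
      · rw [ProbabilityMeasure.null_iff_toMeasure_null _ _ |>.2 ha]
      · rw [cl_int b x μ ha]
        exact hb x
    · rintro ⟨ha, hb⟩
      have ha' : (μ : Measure ℝ) (Set.Icc (-b) b)ᶜ = 0 := by
        rw [← ProbabilityMeasure.null_iff_toMeasure_null]
        exact le_antisymm (ha 0) bot_le
      refine ⟨ha', fun x => ?_⟩
      have := hb x
      rwa [cl_int b x μ ha'] at this
  rw [h3]
  exact h1.inter_right h2

theorem spread_ne (b κ : ℝ) (hκ : κ ≠ 0) (μ : ProbabilityMeasure ℝ) (hμ : μ ∈ spread b κ)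
    (r : ℝ) : (μ : Measure ℝ) {r} ≠ 1 := by
  intro h
  have h1 : ∀ᵐ y ∂(μ : Measure ℝ), y = r := by
    have h2 := (prob_compl_eq_zero_iff (μ := (μ : Measure ℝ)) (measurableSet_singleton r)).2 h
    rw [ae_iff]
    exact h2
  have h3 : ∫ y, (y - r) ^ 2 ∂(μ : Measure ℝ) = 0 := by
    have : ∫ y, (y - r) ^ 2 ∂(μ : Measure ℝ) = ∫ _y : ℝ, (0 : ℝ) ∂(μ : Measure ℝ) := by
      refine integral_congr_ae ?_
      filter_upwards [h1] with y hy
      rw [hy]
      simp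
    rw [this]
    simp
  have h4 := hμ.2 r
  rw [h3] at h4
  have : 0 < κ ^ 2 := by positivity
  linarith

end Pool.Agent.U619.UN
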