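import Mathlib

/-! # The infinite power of a law depends continuously on the law (weak topology) -/

set_option autoImplicit false

open MeasureTheory Filter Topology Set
open scoped BigOperators ENNReal NNReal BoundedContinuousFunction

namespace Pool.Agent.U619.UN

/-- the infinite power of a probability measure on the line -/
noncomputable def pw (ι : Type) (μ : ProbabilityMeasure ℝ) : ProbabilityMeasure (ι → ℝ) :=
  ⟨Measure.infinitePi fun _ => (μ : Measure ℝ), inferInstance⟩

theorem pw_coe (ι : Type) (μ : ProbabilityMeasure ℝ) :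
    ((pw ι μ : ProbabilityMeasure (ι → ℝ)) : Measure (ι → ℝ)) =
      Measure.infinitePi fun _ => (μ : Measure ℝ) := rfl

theorem pw_apply (ι : Type) (μ : ProbabilityMeasure ℝ) (F : Finset ι) (s : ι → Set ℝ)
    (hs : ∀ i, MeasurableSet (s i)) (hF : ∀ i, i ∉ F → s i = univ) :
    pw ι μ (univ.pi s) = ∏ i ∈ F, μ (s i) := by
  have h1 : (univ.pi s : Set (ι → ℝ)) = Set.pi (F : Set ι) s := by
    ext x
    simp only [Set.mem_pi, mem_univ, true_implies, Finset.mem_coe]
    constructor
    · intro h i _
      exact h i
    · intro h i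
      by_cases hi : i ∈ F
      · exact h i hi
      · rw [hF i hi]
        exact mem_univ _
  have h2 := Measure.infinitePi_pi (μ := fun _ : ι => (μ : Measure ℝ)) (s := F) (t := s)
    (fun i _ => hs i)
  rw [← ENNReal.coe_inj, ProbabilityMeasure.ennreal_coeFn_eq_coeFn_toMeasure, pw_coe, h1, h2]
  simp [ProbabilityMeasure.ennreal_coeFn_eq_coeFn_toMeasure]

theorem continuous_pw (ι : Type) [Countable ι] : Continuous (pw ι) := by
  refine continuous_iff_continuousAt.2 (fun μ ↦ ?_)
  let S : Set (Set (ι → ℝ)) := {t | ∃ (F : Finset ι) (s : ι → Set ℝ), t = univ.pi s ∧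
    (∀ i, MeasurableSet (s i)) ∧ (∀ i, μ (frontier (s i)) = 0) ∧ ∀ i, i ∉ F → s i = univ}
  have hpi : IsPiSystem S := by
    classical
    rintro - ⟨F, s, rfl, smeas, hs, hF⟩ - ⟨F', s', rfl, s'meas, hs', hF'⟩ -
    refine ⟨F ∪ F', fun i ↦ s i ∩ s' i, pi_inter_distrib.symm,
      fun i ↦ (smeas i).inter (s'meas i), fun i ↦ ?_, fun i hi => ?_⟩
    · have h1 := hs i
      have h2 := hs' i
      rw [ProbabilityMeasure.null_iff_toMeasure_null] at h1 h2 ⊢
      exact null_frontier_inter h1 h2
    · rw [Finset.mem_union, not_or] at hi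
      show s i ∩ s' i = univ
      rw [hF i hi.1, hF' i hi.2, inter_self]
  refine hpi.tendsto_probabilityMeasure_of_tendsto_of_mem (μ := pw ι) ?_ ?_ ?_
  · rintro - ⟨F, s, rfl, smeas, hs, hF⟩
    exact MeasurableSet.univ_pi smeas
  · classical
    intro u u_open x xu
    obtain ⟨I, w, hw, hwu⟩ := isOpen_pi_iff.1 u_open x xu
    have A : ∀ i, ∃ r : ℝ, 0 < r ∧ (i ∈ I → Metric.ball (x i) r ⊆ w i) ∧
        (μ : Measure ℝ) (frontier (Metric.ball (x i) r)) = 0 := by
      intro i
      by_cases hi : i ∈ I
      · obtain ⟨ε, εpos, hε⟩ := Metric.isOpen_iff.1 (hw i hi).1 (x i) (hw i hi).2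
        obtain ⟨r, hr, hr2⟩ := exists_null_frontier_thickening (μ : Measure ℝ) {x i} εpos
        rw [Metric.thickening_singleton] at hr2
        exact ⟨r, hr.1, fun _ => (Metric.ball_subset_ball hr.2.le).trans hε, hr2⟩
      · obtain ⟨r, hr, hr2⟩ := exists_null_frontier_thickening (μ : Measure ℝ) {x i}
          (zero_lt_one)
        rw [Metric.thickening_singleton] at hr2
        exact ⟨r, hr.1, fun h => absurd h hi, hr2⟩
    choose r rpos hrw hr using A
    let s : ι → Set ℝ := fun i => if i ∈ I then Metric.ball (x i) (r i) else univ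
    have hs1 : ∀ i, i ∈ I → s i = Metric.ball (x i) (r i) := fun i hi => if_pos hi
    have hs2 : ∀ i, i ∉ I → s i = univ := fun i hi => if_neg hi
    have hset : (univ.pi s : Set (ι → ℝ)) = Set.pi (I : Set ι) s := by
      ext y
      simp only [Set.mem_pi, mem_univ, true_implies, Finset.mem_coe]
      constructor
      · intro h i _
        exact h i
      · intro h i
        by_cases hi : i ∈ I
        · exact h i hi
        · rw [hs2 i hi]
          exact mem_univ _
    refine ⟨univ.pi s, ⟨I, s, rfl, fun i => ?_, fun i => ?_, hs2⟩, ?_, ?_⟩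
    · by_cases hi : i ∈ I
      · rw [hs1 i hi]
        exact measurableSet_ball
      · rw [hs2 i hi]
        exact MeasurableSet.univ
    · by_cases hi : i ∈ I
      · rw [hs1 i hi, ProbabilityMeasure.null_iff_toMeasure_null]
        exact hr i
      · rw [hs2 i hi]
        simp
    · rw [hset]
      refine set_pi_mem_nhds I.finite_toSet fun i hi => ?_
      rw [hs1 i hi]
      exact Metric.ball_mem_nhds _ (rpos i)
    · rw [hset]
      refine Subset.trans ?_ hwu
      intro y hy i hi
      have h1 := hy i hi
      rw [hs1 i hi] at h1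
      exact hrw i hi h1
  · rintro - ⟨F, s, rfl, smeas, hs, hF⟩
    simp only [pw_apply ι _ F s smeas hF]
    apply tendsto_finsetProd _ (fun i hi ↦ ?_)
    exact ProbabilityMeasure.tendsto_measure_of_null_frontier_of_tendsto tendsto_id (hs i)

/-- multiplication of the variable by a constant -/
noncomputable def scl (p : ℝ × ProbabilityMeasure ℝ) : ProbabilityMeasure ℝ :=
  p.2.map (f := fun x : ℝ => p.1 * x) (measurable_const_mul p.1).aemeasurable

theorem continuous_scl : Continuous scl := by
  have h1 : Continuous fun p : ℝ × ProbabilityMeasure ℝ =>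
      (diracProba p.1).prod p.2 :=
    ProbabilityMeasure.continuous_prod.comp
      ((continuous_diracProba.comp continuous_fst).prodMk continuous_snd)
  have h2 : Continuous fun q : ℝ × ℝ => q.1 * q.2 := continuous_fst.mul continuous_snd
  have h3 := (ProbabilityMeasure.continuous_map h2).comp h1
  refine h3.congr fun p => ?_
  apply Subtype.ext
  simp only [Function.comp]
  show Measure.map (fun q : ℝ × ℝ => q.1 * q.2) ((Measure.dirac p.1).prod (p.2 : Measure ℝ)) =
    Measure.map (fun x : ℝ => p.1 * x) (p.2 : Measure ℝ)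
  rw [Measure.dirac_prod, Measure.map_map h2.measurable (by fun_prop)]
  rfl

end Pool.Agent.U619.UN
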