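import Pool.Agent.U619.ZV.Mom
import Pool.Agent.U619.UN.Weak

/-! # Subadditivity of the root mean square displacement -/

set_option autoImplicit false
set_option linter.unusedSectionVars false

open MeasureTheory Filter Topology
open scoped BigOperators ENNReal NNReal InnerProductSpace ComplexConjugate

namespace Pool.Agent.U619.UN

open Pool.Agent.H5R2.NB

section abstract

variable {Ω : Type} [TopologicalSpace Ω] [SecondCountableTopology Ω] [MeasurableSpace Ω]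
  [OpensMeasurableSpace Ω] {X : Type} [NormedAddCommGroup X] [InnerProductSpace ℂ X]
  [CompleteSpace X] (P : Measure Ω) [IsProbabilityMeasure P] (T : ℝ → Ω → X) (K : ℝ)

theorem lint_eq (f g : Ω → X) (hf : Continuous f) (hg : Continuous g) (C : ℝ)
    (hfC : ∀ V, ‖f V‖ ≤ C) (hgC : ∀ V, ‖g V‖ ≤ C)
    (h : ∫ V, ⟪f V, f V⟫_ℂ ∂P = ∫ V, ⟪g V, g V⟫_ℂ ∂P) :
    ∫⁻ V, ‖f V‖ₑ ^ 2 ∂P = ∫⁻ V, ‖g V‖ₑ ^ 2 ∂P := by
  have key : ∀ (u : Ω → X), Continuous u → (∀ V, ‖u V‖ ≤ C) →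
      ∫⁻ V, ‖u V‖ₑ ^ 2 ∂P = ENNReal.ofReal (∫ V, ‖u V‖ ^ 2 ∂P) ∧
      ∫ V, ⟪u V, u V⟫_ℂ ∂P = ((∫ V, ‖u V‖ ^ 2 ∂P : ℝ) : ℂ) := by
    intro u hu huC
    constructor
    · rw [ofReal_integral_eq_lintegral_ofReal]
      · refine lintegral_congr fun V => ?_
        rw [ENNReal.ofReal_pow (norm_nonneg _), ofReal_norm]
      · refine Integrable.of_bound (C := C ^ 2) ?_ (Eventually.of_forall fun V => ?_)
        · exact (hu.norm.pow 2).aestronglyMeasurable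
        · rw [Real.norm_eq_abs, abs_of_nonneg (by positivity)]
          exact pow_le_pow_left₀ (norm_nonneg _) (huC V) 2
      · exact Eventually.of_forall fun V => by positivity
    · rw [← integral_complex_ofReal]
      refine integral_congr_ae (Eventually.of_forall fun V => ?_)
      simp only
      rw [inner_self_eq_norm_sq_to_K]
      push_cast
      rfl
  obtain ⟨a1, a2⟩ := key f hf hfC
  obtain ⟨b1, b2⟩ := key g hg hgC
  rw [a2, b2] at h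
  rw [a1, b1, Complex.ofReal_injective h]

theorem incr (hT : Continuous fun p : ℝ × Ω => T p.1 p.2) (hK : ∀ s V, ‖T s V‖ ≤ K)
    (hS : ∀ s s' a : ℝ, ∫ V, ⟪T (s + a) V, T (s' + a) V⟫_ℂ ∂P = ∫ V, ⟪T s V, T s' V⟫_ℂ ∂P)
    (n : ℕ) : ∫⁻ V, ‖LIMA.Y T (n : ℤ) V‖ₑ ^ 2 ∂P = ∫⁻ V, ‖LIMA.Y T 0 V‖ₑ ^ 2 ∂P := by
  have h1 : ∫ V, ⟪LIMA.Y T (n : ℤ) V, LIMA.Y T (n : ℤ) V⟫_ℂ ∂P =
      ∫ V, ⟪LIMA.Y T 0 V, LIMA.Y T 0 V⟫_ℂ ∂P := by
    induction n with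
    | zero => simp
    | succ n ih =>
      rw [← ih, ← LIMA.inner_stat P T K hT hK hS n n]
      push_cast
      rfl
  exact lint_eq P _ _ (LIMA.cont_Y T hT _) (LIMA.cont_Y T hT _) K (LIMA.norm_Y T K hK _)
    (LIMA.norm_Y T K hK _) h1

theorem sum_sq (y : ℕ → X) (k : ℕ) :
    ‖∑ n ∈ Finset.range k, y n‖ₑ ^ 2 ≤ (k : ℝ≥0∞) * ∑ n ∈ Finset.range k, ‖y n‖ₑ ^ 2 := by
  have h1 : ‖∑ n ∈ Finset.range k, y n‖ ^ 2 ≤ (k : ℝ) * ∑ n ∈ Finset.range k, ‖y n‖ ^ 2 := by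
    have h2 : ‖∑ n ∈ Finset.range k, y n‖ ≤ ∑ n ∈ Finset.range k, ‖y n‖ := norm_sum_le _ _
    have h3 := sq_sum_le_card_mul_sum_sq (s := Finset.range k) (f := fun n => ‖y n‖)
    rw [Finset.card_range] at h3
    exact (pow_le_pow_left₀ (norm_nonneg _) h2 2).trans h3
  have e1 : ∀ x : X, ‖x‖ₑ ^ 2 = ENNReal.ofReal (‖x‖ ^ 2) := by
    intro x
    rw [ENNReal.ofReal_pow (norm_nonneg _), ofReal_norm]
  simp only [e1]
  rw [← ENNReal.ofReal_sum_of_nonneg (fun n _ => by positivity), ← ENNReal.ofReal_natCast k,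
    ← ENNReal.ofReal_mul (by positivity)]
  exact ENNReal.ofReal_le_ofReal h1

theorem int_nat (hT : Continuous fun p : ℝ × Ω => T p.1 p.2) (hK : ∀ s V, ‖T s V‖ ≤ K)
    (hS : ∀ s s' a : ℝ, ∫ V, ⟪T (s + a) V, T (s' + a) V⟫_ℂ ∂P = ∫ V, ⟪T s V, T s' V⟫_ℂ ∂P)
    (k : ℕ) : ∫⁻ V, ‖∫ s in (0 : ℝ)..(k : ℝ), T s V‖ₑ ^ 2 ∂P ≤
      (k : ℝ≥0∞) ^ 2 * ∫⁻ V, ‖∫ s in (0 : ℝ)..1, T s V‖ₑ ^ 2 ∂P := by
  have h0 : ∀ V, LIMA.Y T 0 V = ∫ s in (0 : ℝ)..1, T s V := by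
    intro V
    unfold LIMA.Y
    simp
  simp only [LIMA.sum_forward T hT, ← h0]
  have hm : ∀ n ∈ Finset.range k, Measurable fun V => ‖LIMA.Y T (n : ℤ) V‖ₑ ^ 2 :=
    fun n _ => (LIMA.cont_Y T hT n).enorm.measurable.pow_const 2
  calc ∫⁻ V, ‖∑ n ∈ Finset.range k, LIMA.Y T (n : ℤ) V‖ₑ ^ 2 ∂P
      ≤ ∫⁻ V, (k : ℝ≥0∞) * ∑ n ∈ Finset.range k, ‖LIMA.Y T (n : ℤ) V‖ₑ ^ 2 ∂P :=
        lintegral_mono fun V => sum_sq (fun n => LIMA.Y T (n : ℤ) V) k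
    _ = (k : ℝ≥0∞) * ∑ n ∈ Finset.range k, ∫⁻ V, ‖LIMA.Y T (n : ℤ) V‖ₑ ^ 2 ∂P := by
        rw [lintegral_const_mul _ (Finset.measurable_sum _ hm), lintegral_finsetSum _ hm]
    _ = _ := by
        simp only [incr P T K hT hK hS]
        rw [Finset.sum_const, Finset.card_range, nsmul_eq_mul, ← mul_assoc, sq]

/-- subadditivity along multiples of a real time `L` -/
theorem int_mul (hT : Continuous fun p : ℝ × Ω => T p.1 p.2) (hK : ∀ s V, ‖T s V‖ ≤ K)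
    (hS : ∀ s s' a : ℝ, ∫ V, ⟪T (s + a) V, T (s' + a) V⟫_ℂ ∂P = ∫ V, ⟪T s V, T s' V⟫_ℂ ∂P)
    (L : ℝ) (hL : 0 < L) (k : ℕ) : ∫⁻ V, ‖∫ s in (0 : ℝ)..(k : ℝ) * L, T s V‖ₑ ^ 2 ∂P ≤
      (k : ℝ≥0∞) ^ 2 * ∫⁻ V, ‖∫ s in (0 : ℝ)..L, T s V‖ₑ ^ 2 ∂P := by
  have e : ∀ (V : Ω) (b : ℝ), ∫ s in (0 : ℝ)..b, (L : ℂ) • T (L * s) V =
      ∫ s in (0 : ℝ)..b * L, T s V := by
    intro V b
    have h := intervalIntegral.smul_integral_comp_mul_left (a := (0 : ℝ)) (b := b)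
      (fun s => T s V) L
    rw [mul_zero, mul_comm L b] at h
    rw [← h, ← intervalIntegral.integral_smul]
    rfl
  have h := int_nat P (fun s V => (L : ℂ) • T (L * s) V) (L * K) (by
      have h1 : Continuous fun p : ℝ × Ω => T (L * p.1) p.2 :=
        hT.comp (by fun_prop : Continuous fun p : ℝ × Ω => (L * p.1, p.2))
      exact h1.const_smul (L : ℂ)) (by
      intro s V
      rw [norm_smul, Complex.norm_real, Real.norm_eq_abs, abs_of_pos hL]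
      exact mul_le_mul_of_nonneg_left (hK _ _) hL.le) (by
      intro s s' a
      simp only [inner_smul_left, inner_smul_right]
      rw [integral_const_mul, integral_const_mul, integral_const_mul, integral_const_mul,
        mul_add, mul_add, hS (L * s) (L * s') (L * a)]) k
  simp only [e, one_mul] at h
  exact h

theorem sub_bound (hT : Continuous fun p : ℝ × Ω => T p.1 p.2) (hK : ∀ s V, ‖T s V‖ ≤ K)
    (hS : ∀ s s' a : ℝ, ∫ V, ⟪T (s + a) V, T (s' + a) V⟫_ℂ ∂P = ∫ V, ⟪T s V, T s' V⟫_ℂ ∂P)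
    (L : ℝ) (hL : 0 < L) (t : ℝ) (ht : 0 < t) :
    (∫⁻ V, ‖∫ s in (0 : ℝ)..t, T s V‖ₑ ^ 2 ∂P) / ENNReal.ofReal (t ^ 2) ≤
      2 * ((∫⁻ V, ‖∫ s in (0 : ℝ)..L, T s V‖ₑ ^ 2 ∂P) / ENNReal.ofReal (L ^ 2)) +
        ENNReal.ofReal (2 * (K * L) ^ 2) / ENNReal.ofReal (t ^ 2) := by
  have hne : Nonempty Ω := by
    by_contra hne
    rw [not_nonempty_iff] at hne
    have h1 : P Set.univ = 1 := measure_univ
    rw [Set.univ_eq_empty_iff.2 hne, measure_empty] at h1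
    exact zero_ne_one h1
  obtain ⟨V0⟩ := hne
  have hK0 : 0 ≤ K := (norm_nonneg _).trans (hK 0 V0)
  have hc : ∀ V, Continuous fun s : ℝ => T s V := fun V =>
    hT.comp (by fun_prop : Continuous fun s : ℝ => (s, V))
  set k := ⌊t / L⌋₊ with hk
  have hkt : (k : ℝ) ≤ t / L := Nat.floor_le (by positivity)
  have hkt2 : t / L < k + 1 := Nat.lt_floor_add_one _
  have h1 : (k : ℝ) * L ≤ t := by
    rwa [le_div_iff₀ hL] at hkt
  have h2 : t < (k + 1) * L := by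
    rwa [div_lt_iff₀ hL] at hkt2
  have hpt : ∀ V, ‖∫ s in (0 : ℝ)..t, T s V‖ₑ ^ 2 ≤
      2 * ‖∫ s in (0 : ℝ)..(k : ℝ) * L, T s V‖ₑ ^ 2 + ENNReal.ofReal (2 * (K * L) ^ 2) := by
    intro V
    have h3 : ‖∫ s in (0 : ℝ)..t, T s V‖ ≤ ‖∫ s in (0 : ℝ)..(k : ℝ) * L, T s V‖ + K * L := by
      have h4 : (∫ s in (0 : ℝ)..t, T s V) = (∫ s in (0 : ℝ)..(k : ℝ) * L, T s V) +
          ∫ s in (k : ℝ) * L..t, T s V :=
        (intervalIntegral.integral_add_adjacent_intervals ((hc V).intervalIntegrable _ _)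
          ((hc V).intervalIntegrable _ _)).symm
      rw [h4]
      refine (norm_add_le _ _).trans (add_le_add le_rfl ?_)
      refine (intervalIntegral.norm_integral_le_of_norm_le_const
        (fun s _ => hK s V)).trans ?_
      refine mul_le_mul_of_nonneg_left ?_ hK0
      rw [abs_of_nonneg (by linarith)]
      linarith
    have h5 : ‖∫ s in (0 : ℝ)..t, T s V‖ ^ 2 ≤
        2 * ‖∫ s in (0 : ℝ)..(k : ℝ) * L, T s V‖ ^ 2 + 2 * (K * L) ^ 2 := by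
      have h6 := pow_le_pow_left₀ (norm_nonneg _) h3 2
      nlinarith [sq_nonneg (‖∫ s in (0 : ℝ)..(k : ℝ) * L, T s V‖ - K * L)]
    have e1 : ∀ x : X, ‖x‖ₑ ^ 2 = ENNReal.ofReal (‖x‖ ^ 2) := by
      intro x
      rw [ENNReal.ofReal_pow (norm_nonneg _), ofReal_norm]
    rw [e1, e1]
    have e2 : (2 : ℝ≥0∞) = ENNReal.ofReal 2 := by norm_num
    rw [e2, ← ENNReal.ofReal_mul (by norm_num), ← ENNReal.ofReal_add (by positivity)
      (by positivity)]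
    exact ENNReal.ofReal_le_ofReal h5
  have hint : ∫⁻ V, ‖∫ s in (0 : ℝ)..t, T s V‖ₑ ^ 2 ∂P ≤
      2 * (ENNReal.ofReal (t ^ 2) * ((∫⁻ V, ‖∫ s in (0 : ℝ)..L, T s V‖ₑ ^ 2 ∂P) /
        ENNReal.ofReal (L ^ 2))) + ENNReal.ofReal (2 * (K * L) ^ 2) := by
    calc ∫⁻ V, ‖∫ s in (0 : ℝ)..t, T s V‖ₑ ^ 2 ∂P
        ≤ ∫⁻ V, (2 * ‖∫ s in (0 : ℝ)..(k : ℝ) * L, T s V‖ₑ ^ 2 +
          ENNReal.ofReal (2 * (K * L) ^ 2)) ∂P := lintegral_mono hpt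
      _ = 2 * ∫⁻ V, ‖∫ s in (0 : ℝ)..(k : ℝ) * L, T s V‖ₑ ^ 2 ∂P +
          ENNReal.ofReal (2 * (K * L) ^ 2) := by
          rw [lintegral_add_right _ measurable_const, lintegral_const, measure_univ, mul_one,
            lintegral_const_mul' _ _ (by norm_num)]
      _ ≤ 2 * ((k : ℝ≥0∞) ^ 2 * ∫⁻ V, ‖∫ s in (0 : ℝ)..L, T s V‖ₑ ^ 2 ∂P) +
          ENNReal.ofReal (2 * (K * L) ^ 2) := by
          gcongr
          exact int_mul P T K hT hK hS L hL k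
      _ ≤ _ := by
          have h7 : (k : ℝ≥0∞) ^ 2 ≤ ENNReal.ofReal (t ^ 2) / ENNReal.ofReal (L ^ 2) := by
            rw [← ENNReal.ofReal_div_of_pos (by positivity), ← ENNReal.ofReal_natCast,
              ← ENNReal.ofReal_pow (by positivity)]
            refine ENNReal.ofReal_le_ofReal ?_
            rw [← div_pow]
            exact pow_le_pow_left₀ (by positivity) hkt 2
          have h8 : (k : ℝ≥0∞) ^ 2 * (∫⁻ V, ‖∫ s in (0 : ℝ)..L, T s V‖ₑ ^ 2 ∂P) ≤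
              ENNReal.ofReal (t ^ 2) * ((∫⁻ V, ‖∫ s in (0 : ℝ)..L, T s V‖ₑ ^ 2 ∂P) /
                ENNReal.ofReal (L ^ 2)) := by
            calc (k : ℝ≥0∞) ^ 2 * (∫⁻ V, ‖∫ s in (0 : ℝ)..L, T s V‖ₑ ^ 2 ∂P)
                ≤ (ENNReal.ofReal (t ^ 2) / ENNReal.ofReal (L ^ 2)) *
                  (∫⁻ V, ‖∫ s in (0 : ℝ)..L, T s V‖ₑ ^ 2 ∂P) := by gcongr
              _ = _ := by
                rw [div_eq_mul_inv, div_eq_mul_inv, mul_assoc,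
                  mul_comm (ENNReal.ofReal (L ^ 2))⁻¹]
          gcongr
  have ht2 : ENNReal.ofReal (t ^ 2) ≠ 0 := by
    rw [Ne, ENNReal.ofReal_eq_zero, not_le]
    positivity
  calc (∫⁻ V, ‖∫ s in (0 : ℝ)..t, T s V‖ₑ ^ 2 ∂P) / ENNReal.ofReal (t ^ 2)
      ≤ (2 * (ENNReal.ofReal (t ^ 2) * ((∫⁻ V, ‖∫ s in (0 : ℝ)..L, T s V‖ₑ ^ 2 ∂P) /
        ENNReal.ofReal (L ^ 2))) + ENNReal.ofReal (2 * (K * L) ^ 2)) /
          ENNReal.ofReal (t ^ 2) := by gcongr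
    _ = _ := by
        rw [ENNReal.add_div]
        congr 1
        rw [mul_comm (ENNReal.ofReal (t ^ 2)), ← mul_assoc, mul_div_assoc,
          ENNReal.div_self ht2 ENNReal.ofReal_ne_top, mul_one]

end abstract

end Pool.Agent.U619.UN
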