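import Pool.Agent.U619.UN.Sub

/-! # Absence of ballistic motion, uniformly on weakly compact sets of laws -/

set_option autoImplicit false
set_option linter.unusedSectionVars false

open MeasureTheory Filter Topology
open scoped BigOperators ENNReal NNReal InnerProductSpace ComplexConjugate BoundedContinuousFunction

namespace Pool.Agent.U619.UN

open Pool.Agent.H5R2.NB Pool.Agent.U619.NB

variable {d : ℕ} {c : ℝ} {ev : (Site d → ℝ) → UG (L2 (Site d))}

/-- the mean square of the displacement in the direction of `v` -/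
noncomputable def J (ev : (Site d → ℝ) → UG (L2 (Site d))) (v : L2 (Site d) →L[ℂ] L2 (Site d))
    (t : ℝ) (μ : ProbabilityMeasure ℝ) : ℝ≥0∞ :=
  ∫⁻ V, ‖MAIN.F ev v t V‖ₑ ^ 2 ∂(PP d (μ : Measure ℝ))

theorem F_le (hev : ∀ V, IsGrp c V (ev V)) (v : L2 (Site d) →L[ℂ] L2 (Site d)) (t : ℝ)
    (V : Site d → ℝ) : ‖MAIN.F ev v t V‖ ≤ ‖v‖ * |t| := by
  have h := MAIN.F_sub c ev hev ALL.a_CV v V t 0
  have h0 : MAIN.F ev v 0 V = 0 := by
    unfold MAIN.F
    simp
  rw [h0, sub_zero, sub_zero] at h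
  exact h

theorem cont_J (hev : ∀ V, IsGrp c V (ev V)) (v : L2 (Site d) →L[ℂ] L2 (Site d)) (t : ℝ) :
    Continuous (J ev v t) := by
  have hF := MAIN.cont_F c ev hev ALL.a_CV v t
  let f : (Site d → ℝ) →ᵇ ℝ≥0 := BoundedContinuousFunction.mkOfBound
    ⟨fun V => ‖MAIN.F ev v t V‖₊ ^ 2, hF.nnnorm.pow 2⟩ ((‖v‖ * |t|) ^ 2) (by
      intro x y
      have h1 : ∀ V, ‖MAIN.F ev v t V‖ ^ 2 ≤ (‖v‖ * |t|) ^ 2 := fun V =>
        pow_le_pow_left₀ (norm_nonneg _) (F_le hev v t V) 2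
      rw [NNReal.dist_eq]
      simp only [ContinuousMap.coe_mk, NNReal.coe_pow, coe_nnnorm]
      rw [abs_le]
      constructor
      · have := h1 y
        have h2 : 0 ≤ ‖MAIN.F ev v t x‖ ^ 2 := by positivity
        linarith
      · have := h1 x
        have h2 : 0 ≤ ‖MAIN.F ev v t y‖ ^ 2 := by positivity
        linarith)
  have h := (ProbabilityMeasure.continuous_iff_forall_continuous_lintegral
    (μs := pw (Site d))).1 (continuous_pw (Site d)) f
  refine h.congr fun μ => ?_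
  refine lintegral_congr fun V => ?_
  show (((‖MAIN.F ev v t V‖₊ ^ 2 : ℝ≥0)) : ℝ≥0∞) = ‖MAIN.F ev v t V‖ₑ ^ 2
  rw [ENNReal.coe_pow]
  rfl

theorem cont_tau (hev : ∀ V, IsGrp c V (ev V)) (v : L2 (Site d) →L[ℂ] L2 (Site d)) :
    Continuous fun p : ℝ × (Site d → ℝ) => tau ev v p.1 p.2 := by
  have hCV := ALL.a_CV d c ev hev
  unfold tau
  have g1 : Continuous fun p : ℝ × (Site d → ℝ) => (ev p.2).U p.1 (dl 0) :=
    hCV.comp (by fun_prop :
      Continuous fun p : ℝ × (Site d → ℝ) => (p.2, p.1, (dl 0 : L2 (Site d))))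
  have g2 : Continuous fun p : ℝ × (Site d → ℝ) => v ((ev p.2).U p.1 (dl 0)) :=
    v.continuous.comp g1
  exact hCV.comp ((continuous_snd.prodMk (continuous_fst.neg.prodMk g2)) :
    Continuous fun p : ℝ × (Site d → ℝ) => (p.2, -p.1, v ((ev p.2).U p.1 (dl 0))))

theorem J_bound (hev : ∀ V, IsGrp c V (ev V)) (j : Fin d)
    (v : L2 (Site d) →L[ℂ] L2 (Site d)) (hv : IsVel c j v) (μ : ProbabilityMeasure ℝ)
    (L : ℝ) (hL : 0 < L) (t : ℝ) (ht : 0 < t) :
    J ev v t μ / ENNReal.ofReal (t ^ 2) ≤ 2 * (J ev v L μ / ENNReal.ofReal (L ^ 2)) +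
      ENNReal.ofReal (2 * (‖v‖ * L) ^ 2) / ENNReal.ofReal (t ^ 2) := by
  have hP : IsProbabilityMeasure (PP d (μ : Measure ℝ)) := by
    unfold PP
    infer_instance
  exact sub_bound (PP d (μ : Measure ℝ)) (fun s V => tau ev v s V) ‖v‖ (cont_tau hev v)
    (fun s V => MAIN.norm_integrand (ev V) v s)
    (fun s s' a => (t_STAT ALL.a_COV ALL.a_CV t_RES t_OPS) d c ev hev (μ : Measure ℝ) j v hv s s' a)
    L hL t ht

theorem second_J (hev : ∀ V, IsGrp c V (ev V)) (v : Fin d → L2 (Site d) →L[ℂ] L2 (Site d))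
    (hv : ∀ j, IsVel c j (v j)) (μ : ProbabilityMeasure ℝ) (t : ℝ) :
    ∫⁻ V, M2 ((ev V).U t (dl 0)) ∂(PP d (μ : Measure ℝ)) = ∑ j : Fin d, J ev (v j) t μ := by
  have e1 : ∀ V, M2 ((ev V).U t (dl 0)) = ∑ j : Fin d, ‖MAIN.F ev (v j) t V‖ₑ ^ 2 := by
    intro V
    rw [second_eq]
    refine Finset.sum_congr rfl fun j _ => ?_
    exact (t_MOM ALL.a_UN t_OPS) d c V (ev V) (hev V) j (v j) (hv j) t
  simp_rw [e1]
  rw [lintegral_finsetSum _ (fun j _ =>
    (MAIN.cont_F c ev hev ALL.a_CV (v j) t).enorm.measurable.pow_const 2)]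
  rfl

theorem sup_div (K : Set (ProbabilityMeasure ℝ)) (g : ProbabilityMeasure ℝ → ℝ → ℝ≥0∞)
    (q : ℝ) (h : ∀ ε : ℝ≥0∞, 0 < ε → ∀ᶠ t : ℝ in atTop, ∀ μ ∈ K,
      g μ t / ENNReal.ofReal (t ^ q) ≤ ε) :
    Tendsto (fun t : ℝ => (⨆ μ ∈ K, g μ t) / ENNReal.ofReal (t ^ q)) atTop (𝓝 0) := by
  rw [ENNReal.tendsto_nhds_zero]
  intro ε hε
  filter_upwards [h ε hε] with t ht
  simp only [ENNReal.iSup_div]
  exact iSup₂_le ht

/-- second moments, uniformly on a weakly compact set of laws without point masses -/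
theorem unif2 (hev : ∀ V, IsGrp c V (ev V)) (K : Set (ProbabilityMeasure ℝ)) (hK : IsCompact K)
    (hnd : ∀ μ ∈ K, ∀ κ : ℝ, (μ : Measure ℝ) {κ} ≠ 1) (ε : ℝ≥0∞) (hε : 0 < ε) :
    ∀ᶠ t : ℝ in atTop, ∀ μ ∈ K, (∫⁻ V, M2 ((ev V).U t (dl 0)) ∂(PP d (μ : Measure ℝ))) /
      ENNReal.ofReal (t ^ 2) ≤ ε := by
  have hv : ∀ j : Fin d, ∃ v : L2 (Site d) →L[ℂ] L2 (Site d), IsVel c j v :=
    fun j => (t_OPS d).2.2 c j
  choose v hv using hv
  refine hK.induction_on (p := fun S : Set (ProbabilityMeasure ℝ) => ∀ᶠ t : ℝ in atTop,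
    ∀ μ ∈ S, (∫⁻ V, M2 ((ev V).U t (dl 0)) ∂(PP d (μ : Measure ℝ))) /
      ENNReal.ofReal (t ^ 2) ≤ ε) ?_ ?_ ?_ ?_
  · exact Eventually.of_forall fun t μ hμ => absurd hμ (Set.notMem_empty _)
  · intro s t hst ht
    filter_upwards [ht] with r hr μ hμ
    exact hr μ (hst hμ)
  · intro s t hs ht
    filter_upwards [hs, ht] with r hr1 hr2 μ hμ
    rcases hμ with hμ | hμ
    · exact hr1 μ hμ
    · exact hr2 μ hμ
  · intro μ0 hμ0
    have h0 := Pool.Agent.U619.ZV.main2 (ν := (μ0 : Measure ℝ)) hev (hnd μ0 hμ0)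
    have hε4 : 0 < ε / 4 := ENNReal.div_pos hε.ne' (by norm_num)
    obtain ⟨L, hL1, hL2⟩ := ((h0.eventually (gt_mem_nhds hε4)).and
      (eventually_gt_atTop (0 : ℝ))).exists
    have hcont : Continuous fun μ : ProbabilityMeasure ℝ =>
        (∫⁻ V, M2 ((ev V).U L (dl 0)) ∂(PP d (μ : Measure ℝ))) / ENNReal.ofReal (L ^ 2) := by
      simp only [second_J hev v hv]
      have h1 : Continuous fun μ : ProbabilityMeasure ℝ => ∑ j : Fin d, J ev (v j) L μ :=
        continuous_finset_sum _ fun j _ => cont_J hev (v j) L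
      exact ENNReal.continuous_div_const _ (by
        rw [Ne, ENNReal.ofReal_eq_zero, not_le]
        positivity) |>.comp h1
    refine ⟨{μ | (∫⁻ V, M2 ((ev V).U L (dl 0)) ∂(PP d (μ : Measure ℝ))) /
      ENNReal.ofReal (L ^ 2) < ε / 4}, ?_, ?_⟩
    · refine mem_nhdsWithin_of_mem_nhds ((isOpen_lt hcont continuous_const).mem_nhds ?_)
      exact hL1
    · have hB : Tendsto (fun t : ℝ => (∑ j : Fin d, ENNReal.ofReal (2 * (‖v j‖ * L) ^ 2)) /
          ENNReal.ofReal (t ^ 2)) atTop (𝓝 0) := by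
        have hp' : Tendsto (fun t : ℝ => ENNReal.ofReal (t ^ 2)) atTop (𝓝 ∞) :=
          ENNReal.tendsto_ofReal_atTop.comp (tendsto_pow_atTop (by norm_num))
        have h3 : (∑ j : Fin d, ENNReal.ofReal (2 * (‖v j‖ * L) ^ 2)) ≠ ∞ :=
          ENNReal.sum_ne_top.2 fun j _ => ENNReal.ofReal_ne_top
        have h4 := ENNReal.Tendsto.div (tendsto_const_nhds
          (x := ∑ j : Fin d, ENNReal.ofReal (2 * (‖v j‖ * L) ^ 2)) (f := (atTop : Filter ℝ)))
          (Or.inr (by simp)) hp' (Or.inr h3)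
        simpa using h4
      have hε2 : 0 < ε / 2 := ENNReal.half_pos hε.ne'
      filter_upwards [ENNReal.tendsto_nhds_zero.1 hB (ε / 2) hε2, eventually_gt_atTop (0 : ℝ)]
        with t ht ht0 μ hμ
      have h5 : (∫⁻ V, M2 ((ev V).U L (dl 0)) ∂(PP d (μ : Measure ℝ))) /
        ENNReal.ofReal (L ^ 2) < ε / 4 := hμ
      rw [second_J hev v hv] at h5 ⊢
      have h6 : (∑ j : Fin d, J ev (v j) t μ) / ENNReal.ofReal (t ^ 2) ≤
          2 * ((∑ j : Fin d, J ev (v j) L μ) / ENNReal.ofReal (L ^ 2)) +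
          (∑ j : Fin d, ENNReal.ofReal (2 * (‖v j‖ * L) ^ 2)) / ENNReal.ofReal (t ^ 2) := by
        simp only [ENNReal.div_eq_inv_mul, Finset.mul_sum]
        rw [← Finset.sum_add_distrib]
        refine Finset.sum_le_sum fun j _ => ?_
        have h7 := J_bound hev j (v j) (hv j) μ L hL2 t ht0
        simp only [ENNReal.div_eq_inv_mul] at h7
        exact h7
      refine h6.trans ?_
      calc 2 * ((∑ j : Fin d, J ev (v j) L μ) / ENNReal.ofReal (L ^ 2)) +
          (∑ j : Fin d, ENNReal.ofReal (2 * (‖v j‖ * L) ^ 2)) / ENNReal.ofReal (t ^ 2)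
          ≤ 2 * (ε / 4) + ε / 2 := by gcongr
        _ = ε := by
          have e4 : (4 : ℝ≥0∞) = 2 * 2 := by norm_num
          have : 2 * (ε / 4) = ε / 2 := by
            rw [e4, div_eq_mul_inv, div_eq_mul_inv, ENNReal.mul_inv (by norm_num) (by norm_num),
              ← mul_assoc ε, mul_comm (2 : ℝ≥0∞), mul_assoc (ε * 2⁻¹),
              ENNReal.inv_mul_cancel (by norm_num) (by norm_num), mul_one]
          rw [this, ENNReal.add_halves]

/-- all moments, uniformly on a weakly compact set of laws without point masses -/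
theorem unifp (hd : 0 < d) (hev : ∀ V, IsGrp c V (ev V)) (K : Set (ProbabilityMeasure ℝ))
    (hK : IsCompact K) (hnd : ∀ μ ∈ K, ∀ κ : ℝ, (μ : Measure ℝ) {κ} ≠ 1) (p : ℝ) (hp : 0 < p) :
    Tendsto (fun t : ℝ => (⨆ μ ∈ K, ∫⁻ V, Mp p ((ev V).U t (dl 0)) ∂(PP d (μ : Measure ℝ))) /
      ENNReal.ofReal (t ^ p)) atTop (𝓝 0) := by
  have h2 : Tendsto (fun t : ℝ => (⨆ μ ∈ K, ∫⁻ V, M2 ((ev V).U t (dl 0))
      ∂(PP d (μ : Measure ℝ))) / ENNReal.ofReal (t ^ 2)) atTop (𝓝 0) := by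
    rw [ENNReal.tendsto_nhds_zero]
    intro ε hε
    filter_upwards [unif2 hev K hK hnd ε hε] with t ht
    simp only [ENNReal.iSup_div]
    exact iSup₂_le ht
  have hprob : ∀ μ : ProbabilityMeasure ℝ, IsProbabilityMeasure (PP d (μ : Measure ℝ)) := by
    intro μ
    unfold PP
    infer_instance
  rcases le_or_gt p 2 with hp2 | hp2
  · refine abs_low p hp _ _ 1 (by norm_num) h2 fun s hs t => ?_
    have h1 : ∀ V, Mp p ((ev V).U t (dl 0)) ≤ ENNReal.ofReal (s ^ p) * 1 +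
        ENNReal.ofReal (s ^ (p - 2)) * M2 ((ev V).U t (dl 0)) := by
      intro V
      have := low_le p hp hp2 s hs ((ev V).U t (dl 0))
      have e : ‖(ev V).U t (dl 0)‖ₑ = 1 := by
        rw [← ofReal_norm, (ev V).norm', GEN.norm_dl]
        simp
      rw [e] at this
      simpa using this
    refine iSup₂_le fun μ hμ => ?_
    have := hprob μ
    refine (lintegral_mono h1).trans ?_
    rw [lintegral_add_left measurable_const, lintegral_const, measure_univ, mul_one,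
      lintegral_const_mul' _ _ ENNReal.ofReal_ne_top]
    gcongr
    exact le_iSup₂ (f := fun (μ : ProbabilityMeasure ℝ) (_ : μ ∈ K) =>
      ∫⁻ V, M2 ((ev V).U t (dl 0)) ∂(PP d (μ : Measure ℝ))) μ hμ
  · obtain ⟨L, C, hL, hC, h⟩ := high_evo hd c p hp2
    refine abs_high p hp2 _ _ L hL (ENNReal.ofReal C * ∑ j : Fin d, EE j (dl 0)) ?_ h2
      fun t ht => ?_
    · exact ENNReal.mul_ne_top ENNReal.ofReal_ne_top
        (ENNReal.sum_ne_top.2 fun j _ => EE_dl j 0)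
    · refine iSup₂_le fun μ hμ => ?_
      have := hprob μ
      refine (lintegral_mono fun V => h V (ev V) (hev V) (dl 0) t ht).trans ?_
      rw [lintegral_add_right _ measurable_const, lintegral_const, measure_univ, mul_one,
        lintegral_const_mul' _ _ ENNReal.ofReal_ne_top]
      gcongr
      exact le_iSup₂ (f := fun (μ : ProbabilityMeasure ℝ) (_ : μ ∈ K) =>
        ∫⁻ V, M2 ((ev V).U t (dl 0)) ∂(PP d (μ : Measure ℝ))) μ hμ

end Pool.Agent.U619.UN
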